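import Pool.Agent.helper14.NS.Q100b.All
import Pool.Agent.helper14.NS.BaseP

/-!
Generated: the piece Q100b, `100 ≤ e ≤ 150`, `1 / 4 ≤ e κ / 2 ≤ 1 / 2`.
-/

namespace Pool.Agent.helper14.NS.Q100b

open Pool.Agent.helper31.EQ.R
open Pool.Agent.helper12.RS
open Pool.Agent.helper63.NF hiding TD
open Pool.Agent.helper4.NS
open Pool.Agent.helper14.NR
open Pool.Agent.helper71.FG (Ag)
open Pool.Agent.helper14.NS

theorem piece {e κ : ℝ} (h1 : (100 : ℝ) ≤ e) (h2 : e ≤ 150) (hκ : 0 < κ)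
    (hb1 : 1 / 4 ≤ e * κ / 2) (hb2 : e * κ / 2 ≤ 1 / 2)
    (far : FarX e κ (e / (4 + e * Real.sinh κ))) : Nonempty (RDataF e κ) :=
  pieceH_c certs (by decide +kernel) (by decide +kernel) rfl (by linarith) hκ
    (inB_e (by norm_num) h1 h2 (by norm_num) (by norm_num))
    (inB_of (by norm_num) hb1 hb2 (by norm_num))
    (fun hs => absurd hs (by decide)) far

end Pool.Agent.helper14.NS.Q100b
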