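import Pool.Agent.helper14.NS.Q100b.PN2

/-!
Generated: certificates.
-/

namespace Pool.Agent.helper14.NS.Q100b

open Pool.Agent.helper31.IA (Z)
open Pool.Agent.helper31.IX (Op XOps runX Cov CovD cov_split covD_split)
open Pool.Agent.helper31.IC (TD)
open Pool.Agent.helper63.RG (reloc)
open Pool.Agent.helper63.NF hiding TD
open Pool.Agent.helper4.NS
open Pool.Agent.helper14.CF (xE covD_E)
open Pool.Agent.helper14.NR (share)

mutual
theorem A2_c0_t4 : CovD 1 gA2 [(9162457088, 1832910848), (412316860416, 137438953472), (274877906944, 274877906944)] :=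
  covD_E kA2_eq (.n 2 (.n 0 (.n 1 (.n 2 (.l 0) (.l 0)) (.n 2 (.l 0) (.l 0))) (.n 1 (.n 2 (.l 0) (.l 0)) (.n 2 (.l 0) (.l 0)))) (.n 1 (.n 2 (.n 0 (.l 0) (.l 0)) (.n 2 (.l 0) (.l 0))) (.n 0 (.n 2 (.l 0) (.l 0)) (.n 2 (.l 0) (.l 0)))))
    [(9162457088, 1832910848), (412316860416, 137438953472), (274877906944, 274877906944)] rfl (by decide +kernel)
theorem A2_c0_t6 : CovD 1 gA2 [(9162457088, 1832910848), (412316860416, 137438953472), (687194767360, 137438953472)] :=
  covD_E kA2_eq (.n 2 (.n 1 (.n 2 (.l 0) (.l 0)) (.n 0 (.l 0) (.l 0))) (.n 1 (.n 1 (.n 2 (.l 0) (.l 0)) (.n 0 (.l 0) (.l 0))) (.n 1 (.l 0) (.l 0))))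
    [(9162457088, 1832910848), (412316860416, 137438953472), (687194767360, 137438953472)] rfl (by decide +kernel)
end

mutual
theorem A2_c0_t7 : CovD 1 gA2 [(9162457088, 1832910848), (412316860416, 137438953472), (962072674304, 137438953472)] :=
  covD_E kA2_eq (.n 2 (.n 1 (.n 1 (.n 2 (.l 0) (.l 0)) (.n 0 (.l 0) (.l 0))) (.n 2 (.l 0) (.l 0))) (.n 1 (.n 0 (.n 1 (.l 0) (.l 0)) (.n 1 (.l 0) (.l 0))) (.n 2 (.l 0) (.l 0))))
    [(9162457088, 1832910848), (412316860416, 137438953472), (962072674304, 137438953472)] rfl (by decide +kernel)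
theorem A2_c0_t10 : CovD 1 gA2 [(9162457088, 1832910848), (412316860416, 137438953472), (1236950581248, 137438953472)] :=
  covD_E kA2_eq (.n 1 (.n 0 (.n 2 (.n 1 (.l 0) (.l 0)) (.l 0)) (.n 2 (.n 0 (.l 0) (.l 0)) (.l 0))) (.n 2 (.n 2 (.l 0) (.n 0 (.l 0) (.l 0))) (.n 0 (.l 0) (.l 0))))
    [(9162457088, 1832910848), (412316860416, 137438953472), (1236950581248, 137438953472)] rfl (by decide +kernel)
end

mutual
theorem A2_c0_t11 : CovD 1 gA2 [(9162457088, 1832910848), (412316860416, 137438953472), (1511828488192, 137438953472)] :=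
  covD_E kA2_eq (.n 0 (.n 1 (.n 2 (.l 0) (.l 0)) (.n 2 (.l 0) (.l 0))) (.n 1 (.n 2 (.l 0) (.l 0)) (.n 2 (.l 0) (.l 0))))
    [(9162457088, 1832910848), (412316860416, 137438953472), (1511828488192, 137438953472)] rfl (by decide +kernel)
theorem A2_c0_t12 : CovD 1 gA2 [(9162457088, 1832910848), (412316860416, 137438953472), (1924145348608, 274877906944)] :=
  covD_E kA2_eq (.n 2 (.n 0 (.n 1 (.n 2 (.l 0) (.l 0)) (.n 2 (.l 0) (.l 0))) (.n 1 (.n 2 (.l 0) (.l 0)) (.n 2 (.l 0) (.l 0)))) (.n 0 (.n 2 (.n 1 (.l 0) (.l 0)) (.n 2 (.l 0) (.l 0))) (.n 1 (.n 2 (.l 0) (.l 0)) (.n 2 (.l 0) (.l 0)))))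
    [(9162457088, 1832910848), (412316860416, 137438953472), (1924145348608, 274877906944)] rfl (by decide +kernel)
end

mutual
theorem A2_c0_t16 : CovD 1 gA2 [(9162457088, 1832910848), (412316860416, 137438953472), (2336462209024, 137438953472)] :=
  covD_E kA2_eq (.n 0 (.n 1 (.n 0 (.n 2 (.l 0) (.l 0)) (.n 2 (.l 0) (.l 0))) (.n 2 (.l 0) (.l 0))) (.n 1 (.n 2 (.l 0) (.l 0)) (.n 2 (.l 0) (.l 0))))
    [(9162457088, 1832910848), (412316860416, 137438953472), (2336462209024, 137438953472)] rfl (by decide +kernel)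
theorem A2_c0_t17 : CovD 1 gA2 [(9162457088, 1832910848), (412316860416, 137438953472), (2611340115968, 137438953472)] :=
  covD_E kA2_eq (.n 0 (.n 1 (.n 0 (.n 2 (.l 0) (.l 0)) (.n 2 (.l 0) (.l 0))) (.n 2 (.l 0) (.n 0 (.l 0) (.l 0)))) (.n 1 (.n 2 (.l 0) (.l 0)) (.n 2 (.l 0) (.l 0))))
    [(9162457088, 1832910848), (412316860416, 137438953472), (2611340115968, 137438953472)] rfl (by decide +kernel)
end

mutual
theorem A2_c0_t19 : CovD 1 gA2 [(9162457088, 1832910848), (412316860416, 137438953472), (2886218022912, 137438953472)] :=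
  covD_E kA2_eq (.n 0 (.n 0 (.n 1 (.n 2 (.l 0) (.l 0)) (.n 2 (.l 0) (.l 0))) (.n 1 (.n 2 (.l 0) (.l 0)) (.n 2 (.l 0) (.l 0)))) (.n 1 (.n 2 (.l 0) (.l 0)) (.n 2 (.l 0) (.l 0))))
    [(9162457088, 1832910848), (412316860416, 137438953472), (2886218022912, 137438953472)] rfl (by decide +kernel)
theorem A2_c0_t20 : CovD 1 gA2 [(9162457088, 1832910848), (412316860416, 137438953472), (3161095929856, 137438953472)] :=
  covD_E kA2_eq (.n 0 (.n 0 (.n 1 (.n 2 (.l 0) (.l 0)) (.n 2 (.l 0) (.l 0))) (.n 0 (.n 2 (.l 0) (.l 0)) (.n 2 (.l 0) (.l 0)))) (.n 1 (.n 2 (.l 0) (.l 0)) (.n 2 (.l 0) (.l 0))))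
    [(9162457088, 1832910848), (412316860416, 137438953472), (3161095929856, 137438953472)] rfl (by decide +kernel)
end

mutual
theorem A2_c0_t21 : CovD 1 gA2 [(9162457088, 1832910848), (412316860416, 137438953472), (3848290697216, 549755813888)] :=
  covD_E kA2_eq (.n 2 (.n 2 (.n 0 (.l 1) (.l 1)) (.l 1)) (.l 1))
    [(9162457088, 1832910848), (412316860416, 137438953472), (3848290697216, 549755813888)] rfl (by decide +kernel)
theorem A2_c0_t22 : CovD 1 gA2 [(9162457088, 1832910848), (412316860416, 137438953472), (6597069766656, 2199023255552)] :=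
  covD_E kA2_eq (.n 2 (.n 2 (.n 2 (.l 1) (.l 1)) (.l 1)) (.n 2 (.l 1) (.l 1)))
    [(9162457088, 1832910848), (412316860416, 137438953472), (6597069766656, 2199023255552)] rfl (by decide +kernel)
end

mutual
theorem B2_c0_t5 : CovD 1 gB2 [(8246001664, 916455424), (412316860416, 137438953472), (4294967296, 4294967296)] :=
  covD_E kB2_eq (.n 2 (.n 2 (.n 2 (.n 2 (.l 1) (.l 1)) (.n 2 (.l 1) (.l 1))) (.n 0 (.n 2 (.l 1) (.l 1)) (.n 2 (.l 1) (.l 1)))) (.n 2 (.n 0 (.n 2 (.l 1) (.l 1)) (.n 2 (.l 1) (.l 1))) (.n 2 (.l 1) (.l 1))))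
    [(8246001664, 916455424), (412316860416, 137438953472), (4294967296, 4294967296)] rfl (by decide +kernel)
theorem B2_c0_t6 : CovD 1 gB2 [(8246001664, 916455424), (412316860416, 137438953472), (12884901888, 4294967296)] :=
  covD_E kB2_eq (.n 2 (.n 0 (.n 2 (.l 1) (.l 1)) (.n 2 (.l 1) (.l 1))) (.n 2 (.l 1) (.l 1)))
    [(8246001664, 916455424), (412316860416, 137438953472), (12884901888, 4294967296)] rfl (by decide +kernel)
end

mutual
theorem B2_c0_t7 : CovD 1 gB2 [(8246001664, 916455424), (412316860416, 137438953472), (25769803776, 8589934592)] :=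
  covD_E kB2_eq (.n 2 (.n 2 (.n 0 (.l 1) (.l 1)) (.l 1)) (.n 2 (.l 1) (.l 1)))
    [(8246001664, 916455424), (412316860416, 137438953472), (25769803776, 8589934592)] rfl (by decide +kernel)
theorem B2_c0_t10 : CovD 1 gB2 [(10078912512, 916455424), (412316860416, 137438953472), (4294967296, 4294967296)] :=
  covD_E kB2_eq (.n 2 (.n 0 (.n 2 (.n 2 (.l 1) (.l 1)) (.n 2 (.l 1) (.l 1))) (.n 2 (.n 2 (.l 1) (.l 1)) (.n 2 (.l 1) (.l 1)))) (.n 2 (.n 0 (.n 2 (.l 1) (.l 1)) (.n 1 (.l 1) (.l 1))) (.n 2 (.l 1) (.l 1))))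
    [(10078912512, 916455424), (412316860416, 137438953472), (4294967296, 4294967296)] rfl (by decide +kernel)
end

mutual
theorem B2_c0_t11 : CovD 1 gB2 [(10078912512, 916455424), (412316860416, 137438953472), (12884901888, 4294967296)] :=
  covD_E kB2_eq (.n 2 (.n 0 (.n 2 (.l 1) (.l 1)) (.n 2 (.l 1) (.l 1))) (.n 2 (.l 1) (.l 1)))
    [(10078912512, 916455424), (412316860416, 137438953472), (12884901888, 4294967296)] rfl (by decide +kernel)
theorem B2_c0_t12 : CovD 1 gB2 [(10078912512, 916455424), (412316860416, 137438953472), (25769803776, 8589934592)] :=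
  covD_E kB2_eq (.n 2 (.n 2 (.n 0 (.l 1) (.l 1)) (.l 1)) (.n 2 (.l 1) (.l 1)))
    [(10078912512, 916455424), (412316860416, 137438953472), (25769803776, 8589934592)] rfl (by decide +kernel)
end

mutual
theorem B2_c0_t13 : CovD 1 gB2 [(9162457088, 1832910848), (412316860416, 137438953472), (51539607552, 17179869184)] :=
  covD_E kB2_eq (.n 2 (.n 2 (.n 2 (.l 1) (.l 1)) (.n 0 (.l 1) (.l 1))) (.n 2 (.n 0 (.l 1) (.l 1)) (.l 1)))
    [(9162457088, 1832910848), (412316860416, 137438953472), (51539607552, 17179869184)] rfl (by decide +kernel)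
theorem B2_c0_t14 : CovD 1 gB2 [(9162457088, 1832910848), (412316860416, 137438953472), (103079215104, 34359738368)] :=
  covD_E kB2_eq (.n 2 (.n 0 (.n 2 (.l 1) (.l 1)) (.n 2 (.l 1) (.l 1))) (.n 2 (.l 1) (.l 1)))
    [(9162457088, 1832910848), (412316860416, 137438953472), (103079215104, 34359738368)] rfl (by decide +kernel)
end

mutual
theorem D2_c0 : CovD 1 gD2 [(9162457088, 1832910848), (412316860416, 137438953472), (863610339328, 863610339328)] :=
  covD_E kD2_eq (.n 2 (.n 2 (.n 2 (.l 0) (.n 2 (.l 0) (.l 0))) (.n 2 (.n 2 (.l 0) (.l 0)) (.n 2 (.l 0) (.l 0)))) (.n 2 (.n 2 (.n 2 (.l 0) (.l 0)) (.n 2 (.l 0) (.l 0))) (.n 2 (.n 2 (.l 0) (.l 0)) (.n 2 (.l 0) (.l 0)))))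
    [(9162457088, 1832910848), (412316860416, 137438953472), (863610339328, 863610339328)] rfl (by decide +kernel)
theorem E2_c0_t1 : CovD 1 gE2 [(9162457088, 1832910848), (412316860416, 137438953472), (431805169664, 431805169664)] :=
  covD_E kE2_eq (.n 2 (.n 2 (.n 2 (.n 0 (.n 2 (.n 0 (.l 0) (.l 0)) (.l 0)) (.n 1 (.l 0) (.l 0))) (.n 0 (.l 0) (.l 0))) (.n 2 (.l 0) (.l 0))) (.n 2 (.n 2 (.l 0) (.l 0)) (.n 2 (.l 0) (.l 0))))
    [(9162457088, 1832910848), (412316860416, 137438953472), (431805169664, 431805169664)] rfl (by decide +kernel)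
end

theorem E2_c0_t2 : CovD 1 gE2 [(9162457088, 1832910848), (412316860416, 137438953472), (1295415508992, 431805169664)] :=
  covD_E kE2_eq (.n 2 (.n 2 (.n 2 (.l 0) (.l 0)) (.n 2 (.l 0) (.l 0))) (.n 2 (.n 2 (.l 0) (.l 0)) (.n 2 (.l 0) (.l 0))))
    [(9162457088, 1832910848), (412316860416, 137438953472), (1295415508992, 431805169664)] rfl (by decide +kernel)

theorem A2_c0_t5 : CovD 1 gA2 [(9162457088, 1832910848), (412316860416, 137438953472), (824633720832, 274877906944)] :=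
  covD_split 2 (by decide +kernel) A2_c0_t6 A2_c0_t7

theorem A2_c0_t3 : CovD 1 gA2 [(9162457088, 1832910848), (412316860416, 137438953472), (549755813888, 549755813888)] :=
  covD_split 2 (by decide +kernel) A2_c0_t4 A2_c0_t5

theorem A2_c0_t9 : CovD 1 gA2 [(9162457088, 1832910848), (412316860416, 137438953472), (1374389534720, 274877906944)] :=
  covD_split 2 (by decide +kernel) A2_c0_t10 A2_c0_t11

theorem A2_c0_t8 : CovD 1 gA2 [(9162457088, 1832910848), (412316860416, 137438953472), (1649267441664, 549755813888)] :=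
  covD_split 2 (by decide +kernel) A2_c0_t9 A2_c0_t12

theorem A2_c0_t2 : CovD 1 gA2 [(9162457088, 1832910848), (412316860416, 137438953472), (1099511627776, 1099511627776)] :=
  covD_split 2 (by decide +kernel) A2_c0_t3 A2_c0_t8

theorem A2_c0_t15 : CovD 1 gA2 [(9162457088, 1832910848), (412316860416, 137438953472), (2473901162496, 274877906944)] :=
  covD_split 2 (by decide +kernel) A2_c0_t16 A2_c0_t17

theorem A2_c0_t18 : CovD 1 gA2 [(9162457088, 1832910848), (412316860416, 137438953472), (3023656976384, 274877906944)] :=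
  covD_split 2 (by decide +kernel) A2_c0_t19 A2_c0_t20

theorem A2_c0_t14 : CovD 1 gA2 [(9162457088, 1832910848), (412316860416, 137438953472), (2748779069440, 549755813888)] :=
  covD_split 2 (by decide +kernel) A2_c0_t15 A2_c0_t18

theorem A2_c0_t13 : CovD 1 gA2 [(9162457088, 1832910848), (412316860416, 137438953472), (3298534883328, 1099511627776)] :=
  covD_split 2 (by decide +kernel) A2_c0_t14 A2_c0_t21

theorem A2_c0_t1 : CovD 1 gA2 [(9162457088, 1832910848), (412316860416, 137438953472), (2199023255552, 2199023255552)] :=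
  covD_split 2 (by decide +kernel) A2_c0_t2 A2_c0_t13

theorem A2_c0 : CovD 1 gA2 [(9162457088, 1832910848), (412316860416, 137438953472), (4398046511104, 4398046511104)] :=
  covD_split 2 (by decide +kernel) A2_c0_t1 A2_c0_t22

theorem B2_c0_t4 : CovD 1 gB2 [(8246001664, 916455424), (412316860416, 137438953472), (8589934592, 8589934592)] :=
  covD_split 2 (by decide +kernel) B2_c0_t5 B2_c0_t6

theorem B2_c0_t3 : CovD 1 gB2 [(8246001664, 916455424), (412316860416, 137438953472), (17179869184, 17179869184)] :=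
  covD_split 2 (by decide +kernel) B2_c0_t4 B2_c0_t7

theorem B2_c0_t9 : CovD 1 gB2 [(10078912512, 916455424), (412316860416, 137438953472), (8589934592, 8589934592)] :=
  covD_split 2 (by decide +kernel) B2_c0_t10 B2_c0_t11

theorem B2_c0_t8 : CovD 1 gB2 [(10078912512, 916455424), (412316860416, 137438953472), (17179869184, 17179869184)] :=
  covD_split 2 (by decide +kernel) B2_c0_t9 B2_c0_t12

theorem B2_c0_t2 : CovD 1 gB2 [(9162457088, 1832910848), (412316860416, 137438953472), (17179869184, 17179869184)] :=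
  covD_split 0 (by decide +kernel) B2_c0_t3 B2_c0_t8

theorem B2_c0_t1 : CovD 1 gB2 [(9162457088, 1832910848), (412316860416, 137438953472), (34359738368, 34359738368)] :=
  covD_split 2 (by decide +kernel) B2_c0_t2 B2_c0_t13

theorem B2_c0 : CovD 1 gB2 [(9162457088, 1832910848), (412316860416, 137438953472), (68719476736, 68719476736)] :=
  covD_split 2 (by decide +kernel) B2_c0_t1 B2_c0_t14

theorem E2_c0 : CovD 1 gE2 [(9162457088, 1832910848), (412316860416, 137438953472), (863610339328, 863610339328)] :=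
  covD_split 2 (by decide +kernel) E2_c0_t1 E2_c0_t2

end Pool.Agent.helper14.NS.Q100b
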