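import Pool.Agent.helper14.NS.Q100b.PZ

/-!
Generated: certificates.
-/

namespace Pool.Agent.helper14.NS.Q100b

open Pool.Agent.helper31.IA (Z)
open Pool.Agent.helper31.IX (Op XOps runX Cov CovD cov_split covD_split)
open Pool.Agent.helper31.IC (TD)
open Pool.Agent.helper63.RG (reloc)
open Pool.Agent.helper63.NF hiding TD
open Pool.Agent.helper4.NS
open Pool.Agent.helper14.CF (xE covD_E)
open Pool.Agent.helper14.NR (share)

mutual
theorem Z_c0_t3 : CovD 1 gZ [(9162457088, 1832910848), (412316860416, 137438953472), (59928215552, 59928215552)] :=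
  covD_E kZ_eq (.n 2 (.n 1 (.n 1 (.n 2 (.l 0) (.l 0)) (.n 2 (.l 0) (.l 0))) (.n 2 (.l 0) (.n 0 (.l 0) (.l 0)))) (.n 1 (.n 1 (.n 2 (.l 0) (.l 0)) (.n 2 (.l 0) (.l 0))) (.n 0 (.n 2 (.l 0) (.l 0)) (.n 2 (.l 0) (.l 0)))))
    [(9162457088, 1832910848), (412316860416, 137438953472), (59928215552, 59928215552)] rfl (by decide +kernel)
theorem Z_c0_t4 : CovD 1 gZ [(9162457088, 1832910848), (412316860416, 137438953472), (179784646656, 59928215552)] :=
  covD_E kZ_eq (.n 2 (.n 1 (.n 1 (.n 2 (.l 0) (.l 0)) (.n 2 (.l 0) (.l 0))) (.n 0 (.n 1 (.l 0) (.l 0)) (.n 1 (.l 0) (.l 0)))) (.n 1 (.n 1 (.n 2 (.l 0) (.l 0)) (.n 2 (.l 0) (.l 0))) (.n 1 (.n 0 (.l 0) (.l 0)) (.l 0))))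
    [(9162457088, 1832910848), (412316860416, 137438953472), (179784646656, 59928215552)] rfl (by decide +kernel)
end

mutual
theorem Z_c0_t6 : CovD 1 gZ [(9162457088, 1832910848), (412316860416, 137438953472), (299641077760, 59928215552)] :=
  covD_E kZ_eq (.n 2 (.n 1 (.n 0 (.n 1 (.l 0) (.l 0)) (.n 1 (.n 1 (.l 0) (.l 0)) (.l 0))) (.n 2 (.l 0) (.l 0))) (.n 1 (.n 1 (.n 0 (.n 1 (.l 0) (.l 0)) (.n 2 (.l 0) (.l 0))) (.n 2 (.l 0) (.l 0))) (.n 2 (.l 0) (.l 0))))
    [(9162457088, 1832910848), (412316860416, 137438953472), (299641077760, 59928215552)] rfl (by decide +kernel)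
theorem Z_c0_t8 : CovD 1 gZ [(9162457088, 1832910848), (412316860416, 137438953472), (389533401088, 29964107776)] :=
  covD_E kZ_eq (.n 1 (.n 0 (.n 1 (.n 2 (.l 0) (.l 0)) (.l 0)) (.n 1 (.n 2 (.l 0) (.l 0)) (.n 1 (.l 0) (.l 0)))) (.n 2 (.l 0) (.l 0)))
    [(9162457088, 1832910848), (412316860416, 137438953472), (389533401088, 29964107776)] rfl (by decide +kernel)
end

mutual
theorem Z_c0_t9 : CovD 1 gZ [(9162457088, 1832910848), (412316860416, 137438953472), (449461616640, 29964107776)] :=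
  covD_E kZ_eq (.n 0 (.n 1 (.n 1 (.n 2 (.l 0) (.l 0)) (.l 0)) (.l 0)) (.n 1 (.n 1 (.n 0 (.n 2 (.l 0) (.l 0)) (.n 2 (.l 0) (.l 0))) (.n 1 (.l 0) (.l 0))) (.l 0)))
    [(9162457088, 1832910848), (412316860416, 137438953472), (449461616640, 29964107776)] rfl (by decide +kernel)
theorem Z_c0_t13 : CovD 1 gZ [(9162457088, 1832910848), (412316860416, 137438953472), (509389832192, 29964107776)] :=
  covD_E kZ_eq (.n 0 (.n 1 (.n 1 (.n 2 (.l 0) (.l 0)) (.l 0)) (.l 0)) (.n 1 (.n 0 (.n 1 (.n 2 (.l 0) (.l 0)) (.l 0)) (.n 1 (.n 2 (.l 0) (.l 0)) (.l 0))) (.l 0)))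
    [(9162457088, 1832910848), (412316860416, 137438953472), (509389832192, 29964107776)] rfl (by decide +kernel)
end

mutual
theorem Z_c0_t14 : CovD 1 gZ [(9162457088, 1832910848), (412316860416, 137438953472), (569318047744, 29964107776)] :=
  covD_E kZ_eq (.n 0 (.n 1 (.n 1 (.n 2 (.l 0) (.l 0)) (.l 0)) (.l 0)) (.n 1 (.n 1 (.n 2 (.l 0) (.l 0)) (.l 0)) (.l 0)))
    [(9162457088, 1832910848), (412316860416, 137438953472), (569318047744, 29964107776)] rfl (by decide +kernel)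
theorem Z_c0_t15 : CovD 1 gZ [(9162457088, 1832910848), (412316860416, 137438953472), (659210371072, 59928215552)] :=
  covD_E kZ_eq (.n 2 (.n 0 (.n 1 (.n 1 (.n 2 (.l 0) (.l 0)) (.l 0)) (.l 0)) (.n 1 (.n 1 (.n 2 (.l 0) (.l 0)) (.l 0)) (.l 0))) (.n 0 (.n 1 (.n 1 (.n 2 (.l 0) (.l 0)) (.l 0)) (.l 0)) (.n 1 (.n 1 (.n 2 (.l 0) (.l 0)) (.l 0)) (.l 0))))
    [(9162457088, 1832910848), (412316860416, 137438953472), (659210371072, 59928215552)] rfl (by decide +kernel)
end

mutual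
theorem Z_c0_t18 : CovD 1 gZ [(9162457088, 1832910848), (412316860416, 137438953472), (749102694400, 29964107776)] :=
  covD_E kZ_eq (.n 0 (.n 1 (.n 1 (.n 2 (.l 0) (.l 0)) (.l 0)) (.l 0)) (.n 1 (.n 1 (.n 2 (.l 0) (.l 0)) (.l 0)) (.l 0)))
    [(9162457088, 1832910848), (412316860416, 137438953472), (749102694400, 29964107776)] rfl (by decide +kernel)
theorem Z_c0_t19 : CovD 1 gZ [(9162457088, 1832910848), (412316860416, 137438953472), (809030909952, 29964107776)] :=
  covD_E kZ_eq (.n 0 (.n 1 (.n 1 (.n 2 (.l 0) (.l 0)) (.n 0 (.l 0) (.l 0))) (.n 0 (.l 0) (.l 0))) (.n 1 (.n 1 (.n 2 (.l 0) (.l 0)) (.n 2 (.l 0) (.l 0))) (.n 0 (.l 0) (.l 0))))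
    [(9162457088, 1832910848), (412316860416, 137438953472), (809030909952, 29964107776)] rfl (by decide +kernel)
end

mutual
theorem Z_c0_t21 : CovD 1 gZ [(9162457088, 1832910848), (412316860416, 137438953472), (868959125504, 29964107776)] :=
  covD_E kZ_eq (.n 0 (.n 1 (.n 1 (.n 0 (.n 2 (.l 0) (.l 0)) (.n 2 (.l 0) (.l 0))) (.n 2 (.l 0) (.l 0))) (.n 2 (.l 0) (.l 0))) (.n 1 (.n 1 (.n 2 (.n 0 (.l 0) (.l 0)) (.n 2 (.l 0) (.l 0))) (.n 2 (.l 0) (.l 0))) (.n 2 (.l 0) (.l 0))))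
    [(9162457088, 1832910848), (412316860416, 137438953472), (868959125504, 29964107776)] rfl (by decide +kernel)
theorem Z_c0_t23 : CovD 1 gZ [(8246001664, 916455424), (412316860416, 137438953472), (928887341056, 29964107776)] :=
  covD_E kZ_eq (.n 1 (.n 0 (.n 2 (.n 2 (.l 0) (.l 0)) (.n 1 (.n 0 (.l 0) (.l 0)) (.l 0))) (.n 1 (.n 2 (.l 0) (.l 0)) (.n 2 (.l 0) (.l 0)))) (.n 1 (.n 2 (.l 0) (.l 0)) (.n 2 (.l 0) (.l 0))))
    [(8246001664, 916455424), (412316860416, 137438953472), (928887341056, 29964107776)] rfl (by decide +kernel)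
end

mutual
theorem Z_c0_t24 : CovD 1 gZ [(10078912512, 916455424), (412316860416, 137438953472), (928887341056, 29964107776)] :=
  covD_E kZ_eq (.n 1 (.n 0 (.n 2 (.n 2 (.l 0) (.l 0)) (.n 1 (.n 0 (.l 0) (.l 0)) (.l 0))) (.n 1 (.n 2 (.n 2 (.l 0) (.l 0)) (.n 2 (.l 0) (.n 0 (.l 0) (.l 0)))) (.n 2 (.l 0) (.l 0)))) (.n 2 (.l 0) (.n 1 (.l 0) (.l 0))))
    [(10078912512, 916455424), (412316860416, 137438953472), (928887341056, 29964107776)] rfl (by decide +kernel)
theorem T_c0 : CovD 1 gT [(9162457088, 1832910848), (412316860416, 137438953472)] :=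
  covD_E kT_eq (.n 0 (.n 1 (.l 0) (.n 1 (.l 0) (.l 0))) (.l 0))
    [(9162457088, 1832910848), (412316860416, 137438953472)] rfl (by decide +kernel)
end

theorem S_c0 : CovD 0 gS [(9162457088, 1832910848), (412316860416, 137438953472)] :=
  covD_E kS_eq (.n 1 (.n 1 (.l 0) (.l 0)) (.l 0))
    [(9162457088, 1832910848), (412316860416, 137438953472)] rfl (by decide +kernel)

theorem Z_c0_t2 : CovD 1 gZ [(9162457088, 1832910848), (412316860416, 137438953472), (119856431104, 119856431104)] :=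
  covD_split 2 (by decide +kernel) Z_c0_t3 Z_c0_t4

theorem Z_c0_t7 : CovD 1 gZ [(9162457088, 1832910848), (412316860416, 137438953472), (419497508864, 59928215552)] :=
  covD_split 2 (by decide +kernel) Z_c0_t8 Z_c0_t9

theorem Z_c0_t5 : CovD 1 gZ [(9162457088, 1832910848), (412316860416, 137438953472), (359569293312, 119856431104)] :=
  covD_split 2 (by decide +kernel) Z_c0_t6 Z_c0_t7

theorem Z_c0_t1 : CovD 1 gZ [(9162457088, 1832910848), (412316860416, 137438953472), (239712862208, 239712862208)] :=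
  covD_split 2 (by decide +kernel) Z_c0_t2 Z_c0_t5

theorem Z_c0_t12 : CovD 1 gZ [(9162457088, 1832910848), (412316860416, 137438953472), (539353939968, 59928215552)] :=
  covD_split 2 (by decide +kernel) Z_c0_t13 Z_c0_t14

theorem Z_c0_t11 : CovD 1 gZ [(9162457088, 1832910848), (412316860416, 137438953472), (599282155520, 119856431104)] :=
  covD_split 2 (by decide +kernel) Z_c0_t12 Z_c0_t15

theorem Z_c0_t17 : CovD 1 gZ [(9162457088, 1832910848), (412316860416, 137438953472), (779066802176, 59928215552)] :=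
  covD_split 2 (by decide +kernel) Z_c0_t18 Z_c0_t19

theorem Z_c0_t22 : CovD 1 gZ [(9162457088, 1832910848), (412316860416, 137438953472), (928887341056, 29964107776)] :=
  covD_split 0 (by decide +kernel) Z_c0_t23 Z_c0_t24

theorem Z_c0_t20 : CovD 1 gZ [(9162457088, 1832910848), (412316860416, 137438953472), (898923233280, 59928215552)] :=
  covD_split 2 (by decide +kernel) Z_c0_t21 Z_c0_t22

theorem Z_c0_t16 : CovD 1 gZ [(9162457088, 1832910848), (412316860416, 137438953472), (838995017728, 119856431104)] :=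
  covD_split 2 (by decide +kernel) Z_c0_t17 Z_c0_t20

theorem Z_c0_t10 : CovD 1 gZ [(9162457088, 1832910848), (412316860416, 137438953472), (719138586624, 239712862208)] :=
  covD_split 2 (by decide +kernel) Z_c0_t11 Z_c0_t16

theorem Z_c0 : CovD 1 gZ [(9162457088, 1832910848), (412316860416, 137438953472), (479425724416, 479425724416)] :=
  covD_split 2 (by decide +kernel) Z_c0_t1 Z_c0_t10

end Pool.Agent.helper14.NS.Q100b
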