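import Pool.Agent.helper14.NS.Q100b.Tab
import Pool.Agent.helper14.NR.Share

/-!
Generated: programs and compiled forms.
-/

namespace Pool.Agent.helper14.NS.Q100b

open Pool.Agent.helper31.IA (Z)
open Pool.Agent.helper31.IX (Op XOps runX Cov CovD cov_split covD_split)
open Pool.Agent.helper31.IC (TD)
open Pool.Agent.helper63.RG (reloc)
open Pool.Agent.helper63.NF hiding TD
open Pool.Agent.helper4.NS
open Pool.Agent.helper14.CF (xE covD_E)
open Pool.Agent.helper14.NR (share)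

def p2_4 : List Op := [
  .const ⟨1099511627776, 0, 0, 0⟩,
  .mul 1 2,
  .scale ⟨2199023255552, 0, 0, 0⟩ 0,
  .exp 1,
  .neg 2,
  .exp 0,
  .mul 2 2,
  .mul 1 1,
  .mul 0 0,
  .add 2 1,
  .scale ⟨549755813888, 0, 0, 0⟩ 0,
  .scale ⟨2199023255552, 0, 0, 0⟩ 12,
  .mul 10 10,
  .lt 0 68719476736,
  .scale ⟨9162596898, 0, 0, 0⟩ 0,
  .const ⟨183251937962, 0, 0, 0⟩,
  .add 1 0,
  .mul 0 3,
  .const ⟨1099511627776, 0, 0, 0⟩,
  .add 1 0,
  .const ⟨65536, 0, 0, 0⟩,
  .rball 1 0,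
  .mul 9 0,
  .add 18 16,
  .scale ⟨549755813888, 0, 0, 0⟩ 0,
  .mul 2 0,
  .mul 3 3,
  .mul 26 0,
  .mul 2 2,
  .mul 28 0,
  .neg 17,
  .exp 0,
  .add 0 30,
  .pos 0,
  .log 0,
  .const ⟨9160359936, 0, 0, 0⟩,
  .sub 34 0,
  .const ⟨412316860416, 0, 0, 0⟩,
  .sub 37 0,
  .mul 0 0,
  .mul 0 1,
  .mul 4 2,
  .mul 5 5,
  .scale ⟨0, 1396887360, 0, 0⟩ 4,
  .scale ⟨0, 1482614720, 0, 0⟩ 4,
  .add 1 0,
  .scale ⟨21257975552, 0, 0, 0⟩ 5,
  .add 1 0,
  .scale ⟨0, 985738134848, 0, 0⟩ 11,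
  .add 1 0,
  .scale ⟨349441112640, 0, 0, 0⟩ 8,
  .add 1 0,
  .scale ⟨49851148612608, 0, 0, 0⟩ 9,
  .add 1 0,
  .const ⟨547001078720, 0, 0, 0⟩,
  .add 1 0,
  .scale ⟨0, 391430144, 0, 0⟩ 17,
  .scale ⟨0, 745197120, 0, 0⟩ 17,
  .add 1 0,
  .scale ⟨0, 99462417408, 0, 0⟩ 22,
  .add 1 0,
  .scale ⟨0, 312912415424, 0, 0⟩ 19,
  .add 1 0,
  .const ⟨0, 280283456, 0, 0⟩,
  .add 1 0,
  .scale ⟨164245184, 0, 0, 0⟩ 26,
  .scale ⟨33533568, 0, 0, 0⟩ 26,
  .add 1 0,
  .scale ⟨30321878144, 0, 0, 0⟩ 31,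
  .add 1 0,
  .const ⟨0, 161570048, 0, 0⟩,
  .add 1 0,
  .scale ⟨0, 27515712, 0, 0⟩ 33,
  .scale ⟨0, 5792732160, 0, 0⟩ 36,
  .add 1 0,
  .const ⟨60642112, 0, 0, 0⟩,
  .add 1 0,
  .scale ⟨536832, 0, 0, 0⟩ 38,
  .const ⟨0, 7330176, 0, 0⟩,
  .add 1 0,
  .mul 78 80,
  .add 0 68,
  .pos 0,
  .inv 0,
  .mul 73 0,
  .sub 84 57,
  .add 75 2,
  .mul 1 0,
  .mul 3 0,
  .mul 78 61,
  .scale ⟨2199023255552, 0, 0, 0⟩ 0,
  .add 2 0,
  .scale ⟨0, 44014824849408, 0, 0⟩ 54,
  .const ⟨0, 733365665792, 0, 0⟩,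
  .add 1 0,
  .sub 3 0,
  .pos 0,
  .inv 0,
  .scale ⟨31362867265536, 0, 0, 0⟩ 0,
  .add 2 0,
  .pos 0,
  .inv 0,
  .scale ⟨0, 17213602816, 0, 0⟩ 60,
  .scale ⟨5643878730112, 0, 0, 0⟩ 63,
  .add 1 0,
  .const ⟨37859164672, 0, 0, 0⟩,
  .add 1 0,
  .scale ⟨176288629952, 0, 0, 0⟩ 65,
  .scale ⟨28530494674560, 0, 0, 0⟩ 68,
  .add 1 0,
  .const ⟨94226849600, 0, 0, 0⟩,
  .add 1 0,
  .mul 13 0,
  .add 6 0,
  .mul 0 12,
  .scale ⟨60864, 0, 0, 0⟩ 21,
  .const ⟨418944, 0, 0, 0⟩,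
  .add 1 0,
  .mul 24 0,
  .add 0 36,
  .mul 26 0,
  .add 0 41,
  .mul 28 0,
  .add 0 48,
  .mul 30 0,
  .add 0 57,
  .mul 32 0,
  .add 12 68,
  .add 1 0,
  .mul 38 0,
  .add 0 113,
  .neg 0,
  .exp 0,
  .add 0 127,
  .pos 0,
  .log 0,
  .add 132 105,
  .scale ⟨0, 14645854208, 0, 0⟩ 94,
  .scale ⟨0, 91035992064, 0, 0⟩ 94,
  .add 1 0,
  .scale ⟨0, 427568332800, 0, 0⟩ 95,
  .add 1 0,
  .scale ⟨2141791911936, 0, 0, 0⟩ 101,
  .add 1 0,
  .scale ⟨3314083233792, 0, 0, 0⟩ 98,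
  .add 1 0,
  .const ⟨88771919872, 0, 0, 0⟩,
  .add 1 0,
  .scale ⟨40132174413824, 0, 0, 0⟩ 139,
  .neg 0,
  .exp 0,
  .mul 3 0,
  .scale ⟨549755813888, 0, 0, 0⟩ 148,
  .add 0 146,
  .pos 0,
  .inv 0,
  .scale ⟨2199023255552, 0, 0, 0⟩ 3,
  .mul 19 0,
  .mul 0 2,
  .mul 0 155,
  .sub 152 0,
  .pos 0,
  .log 0,
  .mul 27 2,
  .add 0 155,
  .pos 0,
  .log 0,
  .sub 0 3,
  .add 33 0,
  .sub 30 127,
  .scale ⟨2199023255552, 0, 0, 0⟩ 0,
  .add 37 0,
  .add 8 5,
  .sub 1 0,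
  .mul 165 5,
  .scale ⟨549755813888, 0, 0, 0⟩ 0,
  .mul 0 0,
  .lt 0 68719476736,
  .scale ⟨9162596898, 0, 0, 0⟩ 0,
  .const ⟨183251937962, 0, 0, 0⟩,
  .add 1 0,
  .mul 0 3,
  .const ⟨1099511627776, 0, 0, 0⟩,
  .add 1 0,
  .const ⟨65536, 0, 0, 0⟩,
  .rball 1 0,
  .exp 9,
  .mul 0 1,
  .mul 18 0,
  .pos 179,
  .inv 179,
  .mul 180 15,
  .exp 0,
  .const ⟨1099511627776, 0, 0, 0⟩,
  .sub 1 0,
  .mul 0 4,
  .mul 174 187,
  .add 0 157,
  .mul 106 0,
  .mul 188 0,
  .add 0 178,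
  .pos 0,
  .inv 0,
  .add 102 164,
  .mul 13 0,
  .mul 5 5,
  .scale ⟨2199023255552, 0, 0, 0⟩ 0,
  .sub 2 0,
  .mul 169 169,
  .scale ⟨549755813888, 0, 0, 0⟩ 0,
  .sub 2 0,
  .mul 199 20,
  .const ⟨2199023255552, 0, 0, 0⟩,
  .add 1 0,
  .mul 17 0,
  .mul 176 0,
  .add 5 0,
  .mul 205 14,
  .mul 0 0,
  .mul 0 2,
  .add 0 207,
  .pos 0,
  .log 0,
  .scale ⟨549755813888, 0, 0, 0⟩ 0,
  .exp 0,
  .add 0 211,
  .pos 0,
  .mul 8 22,
  .inv 1,
  .mul 1 0,
  .mul 216 0,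
  .add 29 0,
  .pos 87,
  .inv 87,
  .mul 211 139,
  .mul 1 0,
  .mul 0 5,
  .mul 222 0,
  .add 0 222,
  .pos 0,
  .mul 34 216,
  .pos 0,
  .log 0,
  .scale ⟨549755813888, 0, 0, 0⟩ 16,
  .add 1 0,
  .mul 0 48,
  .scale ⟨0, 793037635584, 0, 0⟩ 192,
  .scale ⟨182915956736, 0, 0, 0⟩ 192,
  .add 1 0,
  .scale ⟨0, 959904153600, 0, 0⟩ 193,
  .add 1 0,
  .scale ⟨3298128625664, 0, 0, 0⟩ 199,
  .add 1 0,
  .scale ⟨0, 26904432672768, 0, 0⟩ 196,
  .add 1 0,
  .const ⟨509466312704, 0, 0, 0⟩,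
  .add 1 0,
  .scale ⟨5497558138880, 0, 0, 0⟩ 237,
  .exp 0,
  .pos 2,
  .mul 20 0,
  .scale ⟨2199023255552, 0, 0, 0⟩ 0,
  .inv 20,
  .mul 24 0,
  .inv 6,
  .mul 5 0,
  .mul 2 0,
  .mul 5 0,
  .lt 0 1099510579200,
  .const ⟨11776800325632, 0, 0, 0⟩,
  .add 223 0,
  .pos 0,
  .mul 34 34,
  .sub 0 225,
  .inv 2,
  .mul 1 0,
  .lt 0 1099510579200,
  .scale ⟨19791872, 0, 0, 0⟩ 167,
  .const ⟨0, 107413504, 0, 0⟩,
  .add 1 0,
  .mul 170 0,
  .scale ⟨257622016, 0, 0, 0⟩ 223,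
  .scale ⟨509824860160, 0, 0, 0⟩ 226,
  .add 1 0,
  .const ⟨4863098880, 0, 0, 0⟩,
  .add 1 0,
  .add 5 0,
  .mul 177 0,
  .scale ⟨498335744, 0, 0, 0⟩ 230,
  .scale ⟨13130203136, 0, 0, 0⟩ 230,
  .add 1 0,
  .scale ⟨257641414656, 0, 0, 0⟩ 235,
  .add 1 0,
  .const ⟨1099578146816, 0, 0, 0⟩,
  .add 1 0,
  .add 7 0,
  .scale ⟨1099511627776, 0, 0, 0⟩ 129,
  .pos 0,
  .inv 0,
  .mul 129 58,
  .mul 0 1,
  .scale ⟨549755813888, 0, 0, 0⟩ 0,
  .mul 280 62,
  .add 0 270,
  .pos 0,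
  .inv 0,
  .mul 275 0,
  .sub 66 259,
  .add 277 2,
  .mul 1 0,
  .mul 3 0,
  .mul 280 263,
  .scale ⟨2199023255552, 0, 0, 0⟩ 0,
  .add 2 0,
  .scale ⟨0, 44014824849408, 0, 0⟩ 256,
  .const ⟨0, 733365665792, 0, 0⟩,
  .add 1 0,
  .sub 3 0,
  .pos 0,
  .inv 0,
  .scale ⟨31362867265536, 0, 0, 0⟩ 0,
  .add 2 0,
  .pos 0,
  .inv 0,
  .scale ⟨0, 17213602816, 0, 0⟩ 262,
  .scale ⟨5643878730112, 0, 0, 0⟩ 265,
  .add 1 0,
  .const ⟨37859164672, 0, 0, 0⟩,
  .add 1 0,
  .scale ⟨176288629952, 0, 0, 0⟩ 267,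
  .scale ⟨28530494674560, 0, 0, 0⟩ 270,
  .add 1 0,
  .const ⟨94226849600, 0, 0, 0⟩,
  .add 1 0,
  .mul 13 0,
  .add 6 0,
  .mul 0 12,
  .scale ⟨60864, 0, 0, 0⟩ 21,
  .const ⟨418944, 0, 0, 0⟩,
  .add 1 0,
  .mul 24 0,
  .add 0 238,
  .mul 26 0,
  .add 0 243,
  .mul 28 0,
  .add 0 250,
  .mul 30 0,
  .add 0 259,
  .mul 32 0,
  .add 12 270,
  .add 1 0,
  .mul 38 0,
  .add 0 315,
  .neg 0,
  .exp 0,
  .add 0 329,
  .pos 0,
  .log 0,
  .scale ⟨439697276928, 0, 0, 0⟩ 114,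
  .add 0 332,
  .pos 0,
  .inv 0,
  .scale ⟨0, 16367747072, 0, 0⟩ 298,
  .scale ⟨0, 81903747072, 0, 0⟩ 298,
  .add 1 0,
  .scale ⟨0, 132432527360, 0, 0⟩ 299,
  .add 1 0,
  .scale ⟨1878235938816, 0, 0, 0⟩ 305,
  .add 1 0,
  .scale ⟨5958830391296, 0, 0, 0⟩ 302,
  .add 1 0,
  .const ⟨80352903168, 0, 0, 0⟩,
  .add 1 0,
  .scale ⟨45492293599232, 0, 0, 0⟩ 343,
  .neg 0,
  .exp 0,
  .mul 3 0,
  .scale ⟨1099511627776, 0, 0, 0⟩ 0,
  .mul 0 74,
  .mul 345 271,
  .mul 0 129,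
  .mul 2 0,
  .mul 207 20,
  .mul 1 0,
  .add 232 227,
  .sub 0 26,
  .sub 0 130,
  .exp 0,
  .const ⟨0, 0, 0, 0⟩,
  .mul 87 1,
  .mul 0 33,
  .mul 0 7,
  .rball 3 0,
  .sub 365 91,
  .mul 370 0,
  .sub 367 7,
  .scale ⟨1099511627776, 0, 0, 0⟩ 0,
  .mul 0 90,
  .mul 96 0,
  .add 4 0,
  .add 0 7,
  .lt 0 1099510579200]

set_option maxRecDepth 1000000 in
noncomputable def c2_4 {α : Type} (cst : Z → α) (add sub mul : α → α → α) (scale : Z → α → α)
    (neg inv exp log : α → α) (ok : α → Bool) (isPos : Nat → α → Bool) (isLt : α → Nat → Bool)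
    (ball : Nat → α → α) (rball : α → α → α) : List α → Bool
  | [x0, x1, x2, x3] =>
  let v0 := cst ⟨1099511627776, 0, 0, 0⟩; ok v0 && (
  let v1 := mul x0 x1; ok v1 && (
  let v2 := scale ⟨2199023255552, 0, 0, 0⟩ v1; ok v2 && (
  let v3 := exp v1; ok v3 && (
  let v4 := neg v1; ok v4 && (
  let v5 := exp v4; ok v5 && (
  let v6 := mul v3 v3; ok v6 && (
  let v7 := mul v5 v5; ok v7 && (
  let v8 := mul v7 v7; ok v8 && (
  let v9 := add v6 v7; ok v9 && (
  let v10 := scale ⟨549755813888, 0, 0, 0⟩ v9; ok v10 && (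
  let v11 := scale ⟨2199023255552, 0, 0, 0⟩ x1; ok v11 && (
  let v12 := mul v1 v1; ok v12 && (
  isLt v12 68719476736 && (
  let v13 := scale ⟨9162596898, 0, 0, 0⟩ v12; ok v13 && (
  let v14 := cst ⟨183251937962, 0, 0, 0⟩; ok v14 && (
  let v15 := add v13 v14; ok v15 && (
  let v16 := mul v15 v12; ok v16 && (
  let v17 := cst ⟨1099511627776, 0, 0, 0⟩; ok v17 && (
  let v18 := add v16 v17; ok v18 && (
  let v19 := cst ⟨65536, 0, 0, 0⟩; ok v19 && (
  let v20 := rball v18 v19; ok v20 && (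
  let v21 := mul v11 v20; ok v21 && (
  let v22 := add v3 v5; ok v22 && (
  let v23 := scale ⟨549755813888, 0, 0, 0⟩ v22; ok v23 && (
  let v24 := mul v21 v23; ok v24 && (
  let v25 := mul v21 v21; ok v25 && (
  let v26 := mul x0 v25; ok v26 && (
  let v27 := mul v24 v24; ok v27 && (
  let v28 := mul x0 v27; ok v28 && (
  let v29 := neg v11; ok v29 && (
  let v30 := exp v29; ok v30 && (
  let v31 := add v30 v0; ok v31 && (
  isPos 3 v31 && (
  let v32 := log v31; ok v32 && (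
  let v33 := cst ⟨9160359936, 0, 0, 0⟩; ok v33 && (
  let v34 := sub x0 v33; ok v34 && (
  let v35 := cst ⟨412316860416, 0, 0, 0⟩; ok v35 && (
  let v36 := sub x1 v35; ok v36 && (
  let v37 := mul v36 v36; ok v37 && (
  let v38 := mul v37 v36; ok v38 && (
  let v39 := mul v34 v36; ok v39 && (
  let v40 := mul v34 v34; ok v40 && (
  let v41 := scale ⟨0, 1396887360, 0, 0⟩ v36; ok v41 && (
  let v42 := scale ⟨0, 1482614720, 0, 0⟩ v37; ok v42 && (
  let v43 := add v41 v42; ok v43 && (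
  let v44 := scale ⟨21257975552, 0, 0, 0⟩ v38; ok v44 && (
  let v45 := add v43 v44; ok v45 && (
  let v46 := scale ⟨0, 985738134848, 0, 0⟩ v34; ok v46 && (
  let v47 := add v45 v46; ok v47 && (
  let v48 := scale ⟨349441112640, 0, 0, 0⟩ v39; ok v48 && (
  let v49 := add v47 v48; ok v49 && (
  let v50 := scale ⟨49851148612608, 0, 0, 0⟩ v40; ok v50 && (
  let v51 := add v49 v50; ok v51 && (
  let v52 := cst ⟨547001078720, 0, 0, 0⟩; ok v52 && (
  let v53 := add v51 v52; ok v53 && (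
  let v54 := scale ⟨0, 391430144, 0, 0⟩ v36; ok v54 && (
  let v55 := scale ⟨0, 745197120, 0, 0⟩ v37; ok v55 && (
  let v56 := add v54 v55; ok v56 && (
  let v57 := scale ⟨0, 99462417408, 0, 0⟩ v34; ok v57 && (
  let v58 := add v56 v57; ok v58 && (
  let v59 := scale ⟨0, 312912415424, 0, 0⟩ v39; ok v59 && (
  let v60 := add v58 v59; ok v60 && (
  let v61 := cst ⟨0, 280283456, 0, 0⟩; ok v61 && (
  let v62 := add v60 v61; ok v62 && (
  let v63 := scale ⟨164245184, 0, 0, 0⟩ v36; ok v63 && (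
  let v64 := scale ⟨33533568, 0, 0, 0⟩ v37; ok v64 && (
  let v65 := add v63 v64; ok v65 && (
  let v66 := scale ⟨30321878144, 0, 0, 0⟩ v34; ok v66 && (
  let v67 := add v65 v66; ok v67 && (
  let v68 := cst ⟨0, 161570048, 0, 0⟩; ok v68 && (
  let v69 := add v67 v68; ok v69 && (
  let v70 := scale ⟨0, 27515712, 0, 0⟩ v36; ok v70 && (
  let v71 := scale ⟨0, 5792732160, 0, 0⟩ v34; ok v71 && (
  let v72 := add v70 v71; ok v72 && (
  let v73 := cst ⟨60642112, 0, 0, 0⟩; ok v73 && (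
  let v74 := add v72 v73; ok v74 && (
  let v75 := scale ⟨536832, 0, 0, 0⟩ v36; ok v75 && (
  let v76 := cst ⟨0, 7330176, 0, 0⟩; ok v76 && (
  let v77 := add v75 v76; ok v77 && (
  let v78 := mul x0 x2; ok v78 && (
  let v79 := add v78 v10; ok v79 && (
  isPos 3 v79 && (
  let v80 := inv v79; ok v80 && (
  let v81 := mul v7 v80; ok v81 && (
  let v82 := sub x2 v24; ok v82 && (
  let v83 := add v7 v80; ok v83 && (
  let v84 := mul v82 v83; ok v84 && (
  let v85 := mul v81 v84; ok v85 && (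
  let v86 := mul v7 v24; ok v86 && (
  let v87 := scale ⟨2199023255552, 0, 0, 0⟩ v86; ok v87 && (
  let v88 := add v85 v87; ok v88 && (
  let v89 := scale ⟨0, 44014824849408, 0, 0⟩ v34; ok v89 && (
  let v90 := cst ⟨0, 733365665792, 0, 0⟩; ok v90 && (
  let v91 := add v89 v90; ok v91 && (
  let v92 := sub v88 v91; ok v92 && (
  isPos 3 v92 && (
  let v93 := inv v92; ok v93 && (
  let v94 := scale ⟨31362867265536, 0, 0, 0⟩ v93; ok v94 && (
  let v95 := add v92 v94; ok v95 && (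
  isPos 3 v95 && (
  let v96 := inv v95; ok v96 && (
  let v97 := scale ⟨0, 17213602816, 0, 0⟩ v36; ok v97 && (
  let v98 := scale ⟨5643878730112, 0, 0, 0⟩ v34; ok v98 && (
  let v99 := add v97 v98; ok v99 && (
  let v100 := cst ⟨37859164672, 0, 0, 0⟩; ok v100 && (
  let v101 := add v99 v100; ok v101 && (
  let v102 := scale ⟨176288629952, 0, 0, 0⟩ v36; ok v102 && (
  let v103 := scale ⟨28530494674560, 0, 0, 0⟩ v34; ok v103 && (
  let v104 := add v102 v103; ok v104 && (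
  let v105 := cst ⟨94226849600, 0, 0, 0⟩; ok v105 && (
  let v106 := add v104 v105; ok v106 && (
  let v107 := mul v93 v106; ok v107 && (
  let v108 := add v101 v107; ok v108 && (
  let v109 := mul v108 v96; ok v109 && (
  let v110 := scale ⟨60864, 0, 0, 0⟩ v88; ok v110 && (
  let v111 := cst ⟨418944, 0, 0, 0⟩; ok v111 && (
  let v112 := add v110 v111; ok v112 && (
  let v113 := mul v88 v112; ok v113 && (
  let v114 := add v113 v77; ok v114 && (
  let v115 := mul v88 v114; ok v115 && (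
  let v116 := add v115 v74; ok v116 && (
  let v117 := mul v88 v116; ok v117 && (
  let v118 := add v117 v69; ok v118 && (
  let v119 := mul v88 v118; ok v119 && (
  let v120 := add v119 v62; ok v120 && (
  let v121 := mul v88 v120; ok v121 && (
  let v122 := add v109 v53; ok v122 && (
  let v123 := add v121 v122; ok v123 && (
  let v124 := mul v85 v123; ok v124 && (
  let v125 := add v124 v11; ok v125 && (
  let v126 := neg v125; ok v126 && (
  let v127 := exp v126; ok v127 && (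
  let v128 := add v127 v0; ok v128 && (
  isPos 3 v128 && (
  let v129 := log v128; ok v129 && (
  let v130 := add x2 v24; ok v130 && (
  let v131 := scale ⟨0, 14645854208, 0, 0⟩ v36; ok v131 && (
  let v132 := scale ⟨0, 91035992064, 0, 0⟩ v37; ok v132 && (
  let v133 := add v131 v132; ok v133 && (
  let v134 := scale ⟨0, 427568332800, 0, 0⟩ v38; ok v134 && (
  let v135 := add v133 v134; ok v135 && (
  let v136 := scale ⟨2141791911936, 0, 0, 0⟩ v34; ok v136 && (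
  let v137 := add v135 v136; ok v137 && (
  let v138 := scale ⟨3314083233792, 0, 0, 0⟩ v39; ok v138 && (
  let v139 := add v137 v138; ok v139 && (
  let v140 := cst ⟨88771919872, 0, 0, 0⟩; ok v140 && (
  let v141 := add v139 v140; ok v141 && (
  let v142 := scale ⟨40132174413824, 0, 0, 0⟩ v2; ok v142 && (
  let v143 := neg v142; ok v143 && (
  let v144 := exp v143; ok v144 && (
  let v145 := mul v141 v144; ok v145 && (
  let v146 := scale ⟨549755813888, 0, 0, 0⟩ x2; ok v146 && (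
  let v147 := add v146 v0; ok v147 && (
  isPos 3 v147 && (
  let v148 := inv v147; ok v148 && (
  let v149 := scale ⟨2199023255552, 0, 0, 0⟩ v145; ok v149 && (
  let v150 := mul v130 v149; ok v150 && (
  let v151 := mul v150 v148; ok v151 && (
  let v152 := mul v151 x3; ok v152 && (
  let v153 := sub v0 v152; ok v153 && (
  isPos 3 v153 && (
  let v154 := log v153; ok v154 && (
  let v155 := mul v127 v152; ok v155 && (
  let v156 := add v155 v0; ok v156 && (
  isPos 3 v156 && (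
  let v157 := log v156; ok v157 && (
  let v158 := sub v157 v154; ok v158 && (
  let v159 := add v125 v158; ok v159 && (
  let v160 := sub v129 v32; ok v160 && (
  let v161 := scale ⟨2199023255552, 0, 0, 0⟩ v160; ok v161 && (
  let v162 := add v124 v161; ok v162 && (
  let v163 := add v154 v157; ok v163 && (
  let v164 := sub v162 v163; ok v164 && (
  let v165 := mul x0 v159; ok v165 && (
  let v166 := scale ⟨549755813888, 0, 0, 0⟩ v165; ok v166 && (
  let v167 := mul v166 v166; ok v167 && (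
  isLt v167 68719476736 && (
  let v168 := scale ⟨9162596898, 0, 0, 0⟩ v167; ok v168 && (
  let v169 := cst ⟨183251937962, 0, 0, 0⟩; ok v169 && (
  let v170 := add v168 v169; ok v170 && (
  let v171 := mul v170 v167; ok v171 && (
  let v172 := cst ⟨1099511627776, 0, 0, 0⟩; ok v172 && (
  let v173 := add v171 v172; ok v173 && (
  let v174 := cst ⟨65536, 0, 0, 0⟩; ok v174 && (
  let v175 := rball v173 v174; ok v175 && (
  let v176 := exp v166; ok v176 && (
  let v177 := mul v176 v175; ok v177 && (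
  let v178 := mul v159 v177; ok v178 && (
  isPos 3 x0 && (
  let v179 := inv x0; ok v179 && (
  let v180 := mul x0 v164; ok v180 && (
  let v181 := exp v180; ok v181 && (
  let v182 := cst ⟨1099511627776, 0, 0, 0⟩; ok v182 && (
  let v183 := sub v181 v182; ok v183 && (
  let v184 := mul v183 v179; ok v184 && (
  let v185 := mul v10 x2; ok v185 && (
  let v186 := add v185 v28; ok v186 && (
  let v187 := mul v80 v186; ok v187 && (
  let v188 := mul x0 v187; ok v188 && (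
  let v189 := add v188 v10; ok v189 && (
  isPos 3 v189 && (
  let v190 := inv v189; ok v190 && (
  let v191 := add v88 v26; ok v191 && (
  let v192 := mul v178 v191; ok v192 && (
  let v193 := mul v187 v187; ok v193 && (
  let v194 := scale ⟨2199023255552, 0, 0, 0⟩ v193; ok v194 && (
  let v195 := sub v192 v194; ok v195 && (
  let v196 := mul v26 v26; ok v196 && (
  let v197 := scale ⟨549755813888, 0, 0, 0⟩ v196; ok v197 && (
  let v198 := sub v195 v197; ok v198 && (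
  let v199 := mul x0 v178; ok v199 && (
  let v200 := cst ⟨2199023255552, 0, 0, 0⟩; ok v200 && (
  let v201 := add v199 v200; ok v201 && (
  let v202 := mul v184 v201; ok v202 && (
  let v203 := mul v26 v202; ok v203 && (
  let v204 := add v198 v203; ok v204 && (
  let v205 := mul x0 v190; ok v205 && (
  let v206 := mul v205 v205; ok v206 && (
  let v207 := mul v206 v204; ok v207 && (
  let v208 := add v207 v0; ok v208 && (
  isPos 3 v208 && (
  let v209 := log v208; ok v209 && (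
  let v210 := scale ⟨549755813888, 0, 0, 0⟩ v209; ok v210 && (
  let v211 := exp v210; ok v211 && (
  let v212 := add v211 v0; ok v212 && (
  isPos 3 v212 && (
  let v213 := mul v204 v190; ok v213 && (
  let v214 := inv v212; ok v214 && (
  let v215 := mul v213 v214; ok v215 && (
  let v216 := mul x0 v215; ok v216 && (
  let v217 := add v187 v216; ok v217 && (
  isPos 3 v130 && (
  let v218 := inv v130; ok v218 && (
  let v219 := mul v7 v79; ok v219 && (
  let v220 := mul v218 v219; ok v220 && (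
  let v221 := mul v220 v215; ok v221 && (
  let v222 := mul x0 v221; ok v222 && (
  let v223 := add v222 v0; ok v223 && (
  isPos 3 v223 && (
  let v224 := mul v189 v7; ok v224 && (
  isPos 3 v224 && (
  let v225 := log v224; ok v225 && (
  let v226 := scale ⟨549755813888, 0, 0, 0⟩ v209; ok v226 && (
  let v227 := add v225 v226; ok v227 && (
  let v228 := mul v227 v179; ok v228 && (
  let v229 := scale ⟨0, 793037635584, 0, 0⟩ v36; ok v229 && (
  let v230 := scale ⟨182915956736, 0, 0, 0⟩ v37; ok v230 && (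
  let v231 := add v229 v230; ok v231 && (
  let v232 := scale ⟨0, 959904153600, 0, 0⟩ v38; ok v232 && (
  let v233 := add v231 v232; ok v233 && (
  let v234 := scale ⟨3298128625664, 0, 0, 0⟩ v34; ok v234 && (
  let v235 := add v233 v234; ok v235 && (
  let v236 := scale ⟨0, 26904432672768, 0, 0⟩ v39; ok v236 && (
  let v237 := add v235 v236; ok v237 && (
  let v238 := cst ⟨509466312704, 0, 0, 0⟩; ok v238 && (
  let v239 := add v237 v238; ok v239 && (
  let v240 := scale ⟨5497558138880, 0, 0, 0⟩ v2; ok v240 && (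
  let v241 := exp v240; ok v241 && (
  isPos 3 v239 && (
  let v242 := mul v221 v241; ok v242 && (
  let v243 := scale ⟨2199023255552, 0, 0, 0⟩ v242; ok v243 && (
  let v244 := inv v223; ok v244 && (
  let v245 := mul v220 v244; ok v245 && (
  let v246 := inv v239; ok v246 && (
  let v247 := mul v241 v246; ok v247 && (
  let v248 := mul v245 v247; ok v248 && (
  let v249 := mul v243 v248; ok v249 && (
  isLt v249 1099510579200 && (
  let v250 := cst ⟨11776800325632, 0, 0, 0⟩; ok v250 && (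
  let v251 := add v27 v250; ok v251 && (
  isPos 3 v251 && (
  let v252 := mul v217 v217; ok v252 && (
  let v253 := sub v252 v27; ok v253 && (
  let v254 := inv v251; ok v254 && (
  let v255 := mul v253 v254; ok v255 && (
  isLt v255 1099510579200 && (
  let v256 := scale ⟨19791872, 0, 0, 0⟩ v88; ok v256 && (
  let v257 := cst ⟨0, 107413504, 0, 0⟩; ok v257 && (
  let v258 := add v256 v257; ok v258 && (
  let v259 := mul v88 v258; ok v259 && (
  let v260 := scale ⟨257622016, 0, 0, 0⟩ v36; ok v260 && (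
  let v261 := scale ⟨509824860160, 0, 0, 0⟩ v34; ok v261 && (
  let v262 := add v260 v261; ok v262 && (
  let v263 := cst ⟨4863098880, 0, 0, 0⟩; ok v263 && (
  let v264 := add v262 v263; ok v264 && (
  let v265 := add v259 v264; ok v265 && (
  let v266 := mul v88 v265; ok v266 && (
  let v267 := scale ⟨498335744, 0, 0, 0⟩ v36; ok v267 && (
  let v268 := scale ⟨13130203136, 0, 0, 0⟩ v37; ok v268 && (
  let v269 := add v267 v268; ok v269 && (
  let v270 := scale ⟨257641414656, 0, 0, 0⟩ v34; ok v270 && (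
  let v271 := add v269 v270; ok v271 && (
  let v272 := cst ⟨1099578146816, 0, 0, 0⟩; ok v272 && (
  let v273 := add v271 v272; ok v273 && (
  let v274 := add v266 v273; ok v274 && (
  let v275 := scale ⟨1099511627776, 0, 0, 0⟩ v145; ok v275 && (
  isPos 3 v275 && (
  let v276 := inv v275; ok v276 && (
  let v277 := mul v147 v218; ok v277 && (
  let v278 := mul v277 v276; ok v278 && (
  let v279 := scale ⟨549755813888, 0, 0, 0⟩ v278; ok v279 && (
  let v280 := mul x0 v217; ok v280 && (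
  let v281 := add v280 v10; ok v281 && (
  isPos 3 v281 && (
  let v282 := inv v281; ok v282 && (
  let v283 := mul v7 v282; ok v283 && (
  let v284 := sub v217 v24; ok v284 && (
  let v285 := add v7 v282; ok v285 && (
  let v286 := mul v284 v285; ok v286 && (
  let v287 := mul v283 v286; ok v287 && (
  let v288 := mul v7 v24; ok v288 && (
  let v289 := scale ⟨2199023255552, 0, 0, 0⟩ v288; ok v289 && (
  let v290 := add v287 v289; ok v290 && (
  let v291 := scale ⟨0, 44014824849408, 0, 0⟩ v34; ok v291 && (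
  let v292 := cst ⟨0, 733365665792, 0, 0⟩; ok v292 && (
  let v293 := add v291 v292; ok v293 && (
  let v294 := sub v290 v293; ok v294 && (
  isPos 3 v294 && (
  let v295 := inv v294; ok v295 && (
  let v296 := scale ⟨31362867265536, 0, 0, 0⟩ v295; ok v296 && (
  let v297 := add v294 v296; ok v297 && (
  isPos 3 v297 && (
  let v298 := inv v297; ok v298 && (
  let v299 := scale ⟨0, 17213602816, 0, 0⟩ v36; ok v299 && (
  let v300 := scale ⟨5643878730112, 0, 0, 0⟩ v34; ok v300 && (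
  let v301 := add v299 v300; ok v301 && (
  let v302 := cst ⟨37859164672, 0, 0, 0⟩; ok v302 && (
  let v303 := add v301 v302; ok v303 && (
  let v304 := scale ⟨176288629952, 0, 0, 0⟩ v36; ok v304 && (
  let v305 := scale ⟨28530494674560, 0, 0, 0⟩ v34; ok v305 && (
  let v306 := add v304 v305; ok v306 && (
  let v307 := cst ⟨94226849600, 0, 0, 0⟩; ok v307 && (
  let v308 := add v306 v307; ok v308 && (
  let v309 := mul v295 v308; ok v309 && (
  let v310 := add v303 v309; ok v310 && (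
  let v311 := mul v310 v298; ok v311 && (
  let v312 := scale ⟨60864, 0, 0, 0⟩ v290; ok v312 && (
  let v313 := cst ⟨418944, 0, 0, 0⟩; ok v313 && (
  let v314 := add v312 v313; ok v314 && (
  let v315 := mul v290 v314; ok v315 && (
  let v316 := add v315 v77; ok v316 && (
  let v317 := mul v290 v316; ok v317 && (
  let v318 := add v317 v74; ok v318 && (
  let v319 := mul v290 v318; ok v319 && (
  let v320 := add v319 v69; ok v320 && (
  let v321 := mul v290 v320; ok v321 && (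
  let v322 := add v321 v62; ok v322 && (
  let v323 := mul v290 v322; ok v323 && (
  let v324 := add v311 v53; ok v324 && (
  let v325 := add v323 v324; ok v325 && (
  let v326 := mul v287 v325; ok v326 && (
  let v327 := add v326 v11; ok v327 && (
  let v328 := neg v327; ok v328 && (
  let v329 := exp v328; ok v329 && (
  let v330 := add v329 v0; ok v330 && (
  isPos 3 v330 && (
  let v331 := log v330; ok v331 && (
  let v332 := scale ⟨439697276928, 0, 0, 0⟩ v217; ok v332 && (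
  let v333 := add v332 v0; ok v333 && (
  isPos 3 v333 && (
  let v334 := inv v333; ok v334 && (
  let v335 := scale ⟨0, 16367747072, 0, 0⟩ v36; ok v335 && (
  let v336 := scale ⟨0, 81903747072, 0, 0⟩ v37; ok v336 && (
  let v337 := add v335 v336; ok v337 && (
  let v338 := scale ⟨0, 132432527360, 0, 0⟩ v38; ok v338 && (
  let v339 := add v337 v338; ok v339 && (
  let v340 := scale ⟨1878235938816, 0, 0, 0⟩ v34; ok v340 && (
  let v341 := add v339 v340; ok v341 && (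
  let v342 := scale ⟨5958830391296, 0, 0, 0⟩ v39; ok v342 && (
  let v343 := add v341 v342; ok v343 && (
  let v344 := cst ⟨80352903168, 0, 0, 0⟩; ok v344 && (
  let v345 := add v343 v344; ok v345 && (
  let v346 := scale ⟨45492293599232, 0, 0, 0⟩ v2; ok v346 && (
  let v347 := neg v346; ok v347 && (
  let v348 := exp v347; ok v348 && (
  let v349 := mul v345 v348; ok v349 && (
  let v350 := scale ⟨1099511627776, 0, 0, 0⟩ v349; ok v350 && (
  let v351 := mul v350 v276; ok v351 && (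
  let v352 := mul v6 v80; ok v352 && (
  let v353 := mul v352 v223; ok v353 && (
  let v354 := mul v351 v353; ok v354 && (
  let v355 := mul v147 v334; ok v355 && (
  let v356 := mul v354 v355; ok v356 && (
  let v357 := add v124 v129; ok v357 && (
  let v358 := sub v357 v331; ok v358 && (
  let v359 := sub v358 v228; ok v359 && (
  let v360 := exp v359; ok v360 && (
  let v361 := cst ⟨0, 0, 0, 0⟩; ok v361 && (
  let v362 := mul v274 v360; ok v362 && (
  let v363 := mul v362 v329; ok v363 && (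
  let v364 := mul v363 v356; ok v364 && (
  let v365 := rball v361 v364; ok v365 && (
  let v366 := sub v0 v274; ok v366 && (
  let v367 := mul x3 v366; ok v367 && (
  let v368 := sub v0 v360; ok v368 && (
  let v369 := scale ⟨1099511627776, 0, 0, 0⟩ v368; ok v369 && (
  let v370 := mul v369 v279; ok v370 && (
  let v371 := mul v274 v370; ok v371 && (
  let v372 := add v367 v371; ok v372 && (
  let v373 := add v372 v365; ok v373 && (
  isLt v373 1099510579200 && (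
  true))))))))))))))))))))))))))))))))))))))))))))))))))))))))))))))))))))))))))))))))))))))))))))))))))))))))))))))))))))))))))))))))))))))))))))))))))))))))))))))))))))))))))))))))))))))))))))))))))))))))))))))))))))))))))))))))))))))))))))))))))))))))))))))))))))))))))))))))))))))))))))))))))))))))))))))))))))))))))))))))))))))))))))))))))))))))))))))))))))))))))))))))))))))))))))))))))))))))))))))))))
  | _ => false

set_option maxRecDepth 1000000 in
theorem c2_4_eq (X : XOps) (m : List X.O.α)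
    (h : c2_4 X.O.cst X.O.add X.O.sub X.O.mul X.O.scale X.O.neg X.O.inv X.O.exp X.O.log X.O.ok
      X.O.isPos X.O.isLt X.ball X.rball m = true) :
    runX X 3 p2_4 m = true := by
  match m, h with
  | [x0, x1, x2, x3], h => exact h

def p1_A4 : List Op := [
  .const ⟨1099511627776, 0, 0, 0⟩,
  .mul 1 2,
  .exp 0,
  .neg 1,
  .exp 0,
  .mul 3 3,
  .lt 0 68719476736,
  .scale ⟨9162596898, 0, 0, 0⟩ 0,
  .const ⟨183251937962, 0, 0, 0⟩,
  .add 1 0,
  .mul 0 3,
  .const ⟨1099511627776, 0, 0, 0⟩,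
  .add 1 0,
  .const ⟨65536, 0, 0, 0⟩,
  .rball 1 0,
  .scale ⟨2199023255552, 0, 0, 0⟩ 15,
  .mul 0 1,
  .add 13 11,
  .scale ⟨549755813888, 0, 0, 0⟩ 0,
  .mul 2 0,
  .mul 0 0,
  .const ⟨9160359936, 0, 0, 0⟩,
  .sub 21 0,
  .const ⟨412316860416, 0, 0, 0⟩,
  .sub 24 0,
  .mul 0 0,
  .mul 0 1,
  .mul 4 2,
  .mul 22 22,
  .mul 0 0,
  .scale ⟨17592186044416, 0, 0, 0⟩ 27,
  .neg 0,
  .exp 0,
  .scale ⟨0, 2679951982592, 0, 0⟩ 8,
  .scale ⟨761988972544, 0, 0, 0⟩ 8,
  .add 1 0,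
  .scale ⟨0, 11095669276672, 0, 0⟩ 9,
  .add 1 0,
  .scale ⟨24118510747648, 0, 0, 0⟩ 15,
  .add 1 0,
  .scale ⟨0, 225841994072064, 0, 0⟩ 12,
  .add 1 0,
  .const ⟨3727904145408, 0, 0, 0⟩,
  .add 1 0,
  .mul 43 24,
  .mul 0 1,
  .add 0 44,
  .mul 14 0,
  .scale ⟨1099511627776, 0, 0, 0⟩ 18,
  .add 0 47,
  .mul 20 0,
  .add 0 49,
  .mul 22 0,
  .add 0 51,
  .mul 25 0,
  .scale ⟨2199023255552, 0, 0, 0⟩ 0,
  .mul 12 23,
  .sub 1 0,
  .mul 57 0,
  .add 11 57,
  .mul 1 39,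
  .mul 1 62,
  .scale ⟨0, 0, 1099511627776, 0⟩ 0,
  .add 2 0,
  .mul 5 65,
  .scale ⟨0, 0, 1099511627776, 0⟩ 0,
  .add 6 0,
  .inv 0,
  .mul 4 0]

set_option maxRecDepth 1000000 in
noncomputable def c_A4_0 {α : Type} (cst : Z → α) (add sub mul : α → α → α) (scale : Z → α → α)
    (neg inv exp log : α → α) (ok : α → Bool) (isPos : Nat → α → Bool) (isLt : α → Nat → Bool)
    (ball : Nat → α → α) (rball : α → α → α) : List α → Bool
  | [x0, x1, x2, x3] =>
  let v0 := cst ⟨1099511627776, 0, 0, 0⟩; ok v0 && (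
  let v1 := mul x0 x1; ok v1 && (
  let v2 := exp v1; ok v2 && (
  let v3 := neg v1; ok v3 && (
  let v4 := exp v3; ok v4 && (
  let v5 := mul v1 v1; ok v5 && (
  isLt v5 68719476736 && (
  let v6 := scale ⟨9162596898, 0, 0, 0⟩ v5; ok v6 && (
  let v7 := cst ⟨183251937962, 0, 0, 0⟩; ok v7 && (
  let v8 := add v6 v7; ok v8 && (
  let v9 := mul v8 v5; ok v9 && (
  let v10 := cst ⟨1099511627776, 0, 0, 0⟩; ok v10 && (
  let v11 := add v9 v10; ok v11 && (
  let v12 := cst ⟨65536, 0, 0, 0⟩; ok v12 && (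
  let v13 := rball v11 v12; ok v13 && (
  let v14 := scale ⟨2199023255552, 0, 0, 0⟩ x1; ok v14 && (
  let v15 := mul v14 v13; ok v15 && (
  let v16 := add v2 v4; ok v16 && (
  let v17 := scale ⟨549755813888, 0, 0, 0⟩ v16; ok v17 && (
  let v18 := mul v15 v17; ok v18 && (
  let v19 := mul v18 v18; ok v19 && (
  let v20 := cst ⟨9160359936, 0, 0, 0⟩; ok v20 && (
  let v21 := sub x0 v20; ok v21 && (
  let v22 := cst ⟨412316860416, 0, 0, 0⟩; ok v22 && (
  let v23 := sub x1 v22; ok v23 && (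
  let v24 := mul v23 v23; ok v24 && (
  let v25 := mul v24 v23; ok v25 && (
  let v26 := mul v21 v23; ok v26 && (
  let v27 := mul v4 v4; ok v27 && (
  let v28 := mul v27 v27; ok v28 && (
  let v29 := scale ⟨17592186044416, 0, 0, 0⟩ v1; ok v29 && (
  let v30 := neg v29; ok v30 && (
  let v31 := exp v30; ok v31 && (
  let v32 := scale ⟨0, 2679951982592, 0, 0⟩ v23; ok v32 && (
  let v33 := scale ⟨761988972544, 0, 0, 0⟩ v24; ok v33 && (
  let v34 := add v32 v33; ok v34 && (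
  let v35 := scale ⟨0, 11095669276672, 0, 0⟩ v25; ok v35 && (
  let v36 := add v34 v35; ok v36 && (
  let v37 := scale ⟨24118510747648, 0, 0, 0⟩ v21; ok v37 && (
  let v38 := add v36 v37; ok v38 && (
  let v39 := scale ⟨0, 225841994072064, 0, 0⟩ v26; ok v39 && (
  let v40 := add v38 v39; ok v40 && (
  let v41 := cst ⟨3727904145408, 0, 0, 0⟩; ok v41 && (
  let v42 := add v40 v41; ok v42 && (
  let v43 := mul x0 v18; ok v43 && (
  let v44 := mul v43 v42; ok v44 && (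
  let v45 := add v44 v0; ok v45 && (
  let v46 := mul v31 v45; ok v46 && (
  let v47 := scale ⟨1099511627776, 0, 0, 0⟩ v28; ok v47 && (
  let v48 := add v47 v0; ok v48 && (
  let v49 := mul v28 v48; ok v49 && (
  let v50 := add v49 v0; ok v50 && (
  let v51 := mul v28 v50; ok v51 && (
  let v52 := add v51 v0; ok v52 && (
  let v53 := mul v27 v52; ok v53 && (
  let v54 := scale ⟨2199023255552, 0, 0, 0⟩ v53; ok v54 && (
  let v55 := mul v42 v31; ok v55 && (
  let v56 := sub v54 v55; ok v56 && (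
  let v57 := mul x0 v56; ok v57 && (
  let v58 := add v46 v0; ok v58 && (
  let v59 := mul v57 v19; ok v59 && (
  let v60 := mul v58 x2; ok v60 && (
  let v61 := scale ⟨0, 0, 1099511627776, 0⟩ v60; ok v61 && (
  let v62 := add v59 v61; ok v62 && (
  let v63 := mul v57 x2; ok v63 && (
  let v64 := scale ⟨0, 0, 1099511627776, 0⟩ v63; ok v64 && (
  let v65 := add v58 v64; ok v65 && (
  let v66 := inv v65; ok v66 && (
  let v67 := mul v62 v66; ok v67 && (
  c2_4 cst add sub mul scale neg inv exp log ok isPos isLt ball rball [x0, x1, v67, x3])))))))))))))))))))))))))))))))))))))))))))))))))))))))))))))))))))))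
  | _ => false

set_option maxRecDepth 1000000 in
theorem c_A4_0_eq (X : XOps) (m : List X.O.α)
    (h : c_A4_0 X.O.cst X.O.add X.O.sub X.O.mul X.O.scale X.O.neg X.O.inv X.O.exp X.O.log X.O.ok
      X.O.isPos X.O.isLt X.ball X.rball m = true) :
    runX X 3 (p1_A4 ++ reloc [68, 69, 0, 71] 72 0 p2_4) m = true := by
  match m, h with
  | [x0, x1, x2, x3], h => exact share (c2_4_eq X) [x0, x1, x2, x3] (Nat.le_of_ble_eq_true rfl) h

def p_A4_1 : List Op := [
  .const ⟨1099511627776, 0, 0, 0⟩,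
  .mul 1 2,
  .exp 0,
  .neg 1,
  .exp 0,
  .mul 3 3,
  .lt 0 68719476736,
  .scale ⟨9162596898, 0, 0, 0⟩ 0,
  .const ⟨183251937962, 0, 0, 0⟩,
  .add 1 0,
  .mul 0 3,
  .const ⟨1099511627776, 0, 0, 0⟩,
  .add 1 0,
  .const ⟨65536, 0, 0, 0⟩,
  .rball 1 0,
  .scale ⟨2199023255552, 0, 0, 0⟩ 15,
  .mul 0 1,
  .add 13 11,
  .scale ⟨549755813888, 0, 0, 0⟩ 0,
  .mul 2 0,
  .mul 0 0,
  .const ⟨9160359936, 0, 0, 0⟩,
  .sub 21 0,
  .const ⟨412316860416, 0, 0, 0⟩,
  .sub 24 0,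
  .mul 0 0,
  .mul 0 1,
  .mul 4 2,
  .mul 22 22,
  .mul 0 0,
  .scale ⟨17592186044416, 0, 0, 0⟩ 27,
  .neg 0,
  .exp 0,
  .scale ⟨0, 2679951982592, 0, 0⟩ 8,
  .scale ⟨761988972544, 0, 0, 0⟩ 8,
  .add 1 0,
  .scale ⟨0, 11095669276672, 0, 0⟩ 9,
  .add 1 0,
  .scale ⟨24118510747648, 0, 0, 0⟩ 15,
  .add 1 0,
  .scale ⟨0, 225841994072064, 0, 0⟩ 12,
  .add 1 0,
  .const ⟨3727904145408, 0, 0, 0⟩,
  .add 1 0,
  .mul 43 24,
  .mul 0 1,
  .add 0 44,
  .mul 14 0,
  .scale ⟨1099511627776, 0, 0, 0⟩ 18,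
  .add 0 47,
  .mul 20 0,
  .add 0 49,
  .mul 22 0,
  .add 0 51,
  .mul 25 0,
  .scale ⟨2199023255552, 0, 0, 0⟩ 0,
  .mul 12 23,
  .sub 1 0,
  .mul 57 0,
  .add 11 57,
  .mul 1 39,
  .mul 1 62,
  .scale ⟨0, 0, 1099511627776, 0⟩ 0,
  .add 2 0,
  .mul 5 65,
  .scale ⟨0, 0, 1099511627776, 0⟩ 0,
  .add 6 0,
  .inv 0,
  .mul 4 0,
  .const ⟨10960756539392, 0, 0, 0⟩,
  .add 49 0,
  .mul 70 0,
  .mul 71 3,
  .mul 0 4,
  .mul 73 53,
  .sub 1 0,
  .inv 0,
  .mul 5 0,
  .lt 0 1099511627520]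

set_option maxRecDepth 1000000 in
noncomputable def c_A4_1 {α : Type} (cst : Z → α) (add sub mul : α → α → α) (scale : Z → α → α)
    (neg inv exp log : α → α) (ok : α → Bool) (isPos : Nat → α → Bool) (isLt : α → Nat → Bool)
    (ball : Nat → α → α) (rball : α → α → α) : List α → Bool
  | [x0, x1, x2, x3] =>
  let v0 := cst ⟨1099511627776, 0, 0, 0⟩; ok v0 && (
  let v1 := mul x0 x1; ok v1 && (
  let v2 := exp v1; ok v2 && (
  let v3 := neg v1; ok v3 && (
  let v4 := exp v3; ok v4 && (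
  let v5 := mul v1 v1; ok v5 && (
  isLt v5 68719476736 && (
  let v6 := scale ⟨9162596898, 0, 0, 0⟩ v5; ok v6 && (
  let v7 := cst ⟨183251937962, 0, 0, 0⟩; ok v7 && (
  let v8 := add v6 v7; ok v8 && (
  let v9 := mul v8 v5; ok v9 && (
  let v10 := cst ⟨1099511627776, 0, 0, 0⟩; ok v10 && (
  let v11 := add v9 v10; ok v11 && (
  let v12 := cst ⟨65536, 0, 0, 0⟩; ok v12 && (
  let v13 := rball v11 v12; ok v13 && (
  let v14 := scale ⟨2199023255552, 0, 0, 0⟩ x1; ok v14 && (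
  let v15 := mul v14 v13; ok v15 && (
  let v16 := add v2 v4; ok v16 && (
  let v17 := scale ⟨549755813888, 0, 0, 0⟩ v16; ok v17 && (
  let v18 := mul v15 v17; ok v18 && (
  let v19 := mul v18 v18; ok v19 && (
  let v20 := cst ⟨9160359936, 0, 0, 0⟩; ok v20 && (
  let v21 := sub x0 v20; ok v21 && (
  let v22 := cst ⟨412316860416, 0, 0, 0⟩; ok v22 && (
  let v23 := sub x1 v22; ok v23 && (
  let v24 := mul v23 v23; ok v24 && (
  let v25 := mul v24 v23; ok v25 && (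
  let v26 := mul v21 v23; ok v26 && (
  let v27 := mul v4 v4; ok v27 && (
  let v28 := mul v27 v27; ok v28 && (
  let v29 := scale ⟨17592186044416, 0, 0, 0⟩ v1; ok v29 && (
  let v30 := neg v29; ok v30 && (
  let v31 := exp v30; ok v31 && (
  let v32 := scale ⟨0, 2679951982592, 0, 0⟩ v23; ok v32 && (
  let v33 := scale ⟨761988972544, 0, 0, 0⟩ v24; ok v33 && (
  let v34 := add v32 v33; ok v34 && (
  let v35 := scale ⟨0, 11095669276672, 0, 0⟩ v25; ok v35 && (
  let v36 := add v34 v35; ok v36 && (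
  let v37 := scale ⟨24118510747648, 0, 0, 0⟩ v21; ok v37 && (
  let v38 := add v36 v37; ok v38 && (
  let v39 := scale ⟨0, 225841994072064, 0, 0⟩ v26; ok v39 && (
  let v40 := add v38 v39; ok v40 && (
  let v41 := cst ⟨3727904145408, 0, 0, 0⟩; ok v41 && (
  let v42 := add v40 v41; ok v42 && (
  let v43 := mul x0 v18; ok v43 && (
  let v44 := mul v43 v42; ok v44 && (
  let v45 := add v44 v0; ok v45 && (
  let v46 := mul v31 v45; ok v46 && (
  let v47 := scale ⟨1099511627776, 0, 0, 0⟩ v28; ok v47 && (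
  let v48 := add v47 v0; ok v48 && (
  let v49 := mul v28 v48; ok v49 && (
  let v50 := add v49 v0; ok v50 && (
  let v51 := mul v28 v50; ok v51 && (
  let v52 := add v51 v0; ok v52 && (
  let v53 := mul v27 v52; ok v53 && (
  let v54 := scale ⟨2199023255552, 0, 0, 0⟩ v53; ok v54 && (
  let v55 := mul v42 v31; ok v55 && (
  let v56 := sub v54 v55; ok v56 && (
  let v57 := mul x0 v56; ok v57 && (
  let v58 := add v46 v0; ok v58 && (
  let v59 := mul v57 v19; ok v59 && (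
  let v60 := mul v58 x2; ok v60 && (
  let v61 := scale ⟨0, 0, 1099511627776, 0⟩ v60; ok v61 && (
  let v62 := add v59 v61; ok v62 && (
  let v63 := mul v57 x2; ok v63 && (
  let v64 := scale ⟨0, 0, 1099511627776, 0⟩ v63; ok v64 && (
  let v65 := add v58 v64; ok v65 && (
  let v66 := inv v65; ok v66 && (
  let v67 := mul v62 v66; ok v67 && (
  let v68 := cst ⟨10960756539392, 0, 0, 0⟩; ok v68 && (
  let v69 := add v19 v68; ok v69 && (
  let v70 := mul x0 v69; ok v70 && (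
  let v71 := mul x0 v67; ok v71 && (
  let v72 := mul v71 v67; ok v72 && (
  let v73 := mul x0 v19; ok v73 && (
  let v74 := sub v72 v73; ok v74 && (
  let v75 := inv v74; ok v75 && (
  let v76 := mul v70 v75; ok v76 && (
  isLt v76 1099511627520 && (
  true)))))))))))))))))))))))))))))))))))))))))))))))))))))))))))))))))))))))))))))))
  | _ => false

set_option maxRecDepth 1000000 in
theorem c_A4_1_eq (X : XOps) (m : List X.O.α)
    (h : c_A4_1 X.O.cst X.O.add X.O.sub X.O.mul X.O.scale X.O.neg X.O.inv X.O.exp X.O.log X.O.ok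
      X.O.isPos X.O.isLt X.ball X.rball m = true) :
    runX X 3 p_A4_1 m = true := by
  match m, h with
  | [x0, x1, x2, x3], h => exact h

abbrev gA4 : List (List Op) := [(p1_A4 ++ reloc [68, 69, 0, 71] 72 0 p2_4), p_A4_1]

noncomputable abbrev kA4 : List (List xE.O.α → Bool) := [c_A4_0 xE.O.cst xE.O.add xE.O.sub xE.O.mul xE.O.scale xE.O.neg xE.O.inv xE.O.exp xE.O.log xE.O.ok
      xE.O.isPos xE.O.isLt xE.ball xE.rball, c_A4_1 xE.O.cst xE.O.add xE.O.sub xE.O.mul xE.O.scale xE.O.neg xE.O.inv xE.O.exp xE.O.log xE.O.ok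
      xE.O.isPos xE.O.isLt xE.ball xE.rball]

theorem kA4_eq : List.Forall₂ (fun (ops : List Op) (chk : List xE.O.α → Bool) =>
    ∀ m, chk m = true → runX xE 3 ops m = true) gA4 kA4 :=
  List.Forall₂.cons (c_A4_0_eq xE) (List.Forall₂.cons (c_A4_1_eq xE) List.Forall₂.nil)

theorem gA4_eq : gA4 = [circ (cA tab 4) (PSm tab 4), altP (cA tab 4) (oCut tab 4)] := by decide +kernel

def p1_B4 : List Op := [
  .const ⟨1099511627776, 0, 0, 0⟩,
  .mul 1 2,
  .exp 0,
  .neg 1,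
  .exp 0,
  .mul 3 3,
  .lt 0 68719476736,
  .scale ⟨9162596898, 0, 0, 0⟩ 0,
  .const ⟨183251937962, 0, 0, 0⟩,
  .add 1 0,
  .mul 0 3,
  .const ⟨1099511627776, 0, 0, 0⟩,
  .add 1 0,
  .const ⟨65536, 0, 0, 0⟩,
  .rball 1 0,
  .scale ⟨2199023255552, 0, 0, 0⟩ 15,
  .mul 0 1,
  .add 13 11,
  .scale ⟨549755813888, 0, 0, 0⟩ 0,
  .mul 2 0,
  .mul 0 0,
  .const ⟨9160359936, 0, 0, 0⟩,
  .sub 21 0,
  .const ⟨412316860416, 0, 0, 0⟩,
  .sub 24 0,
  .mul 0 0,
  .mul 0 1,
  .mul 4 2,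
  .mul 22 22,
  .mul 0 0,
  .scale ⟨17592186044416, 0, 0, 0⟩ 27,
  .neg 0,
  .exp 0,
  .scale ⟨0, 2679951982592, 0, 0⟩ 8,
  .scale ⟨761988972544, 0, 0, 0⟩ 8,
  .add 1 0,
  .scale ⟨0, 11095669276672, 0, 0⟩ 9,
  .add 1 0,
  .scale ⟨24118510747648, 0, 0, 0⟩ 15,
  .add 1 0,
  .scale ⟨0, 225841994072064, 0, 0⟩ 12,
  .add 1 0,
  .const ⟨3727904145408, 0, 0, 0⟩,
  .add 1 0,
  .mul 43 24,
  .mul 0 1,
  .add 0 44,
  .mul 14 0,
  .scale ⟨1099511627776, 0, 0, 0⟩ 18,
  .add 0 47,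
  .mul 20 0,
  .add 0 49,
  .mul 22 0,
  .add 0 51,
  .mul 25 0,
  .scale ⟨2199023255552, 0, 0, 0⟩ 0,
  .mul 12 23,
  .sub 1 0,
  .mul 57 0,
  .add 11 57,
  .mul 1 39,
  .mul 0 62,
  .scale ⟨0, 0, 1099511627776, 0⟩ 2,
  .add 1 0,
  .mul 4 65,
  .scale ⟨0, 0, 1099511627776, 0⟩ 6,
  .add 1 0,
  .inv 0,
  .mul 4 0]

set_option maxRecDepth 1000000 in
noncomputable def c_B4_0 {α : Type} (cst : Z → α) (add sub mul : α → α → α) (scale : Z → α → α)
    (neg inv exp log : α → α) (ok : α → Bool) (isPos : Nat → α → Bool) (isLt : α → Nat → Bool)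
    (ball : Nat → α → α) (rball : α → α → α) : List α → Bool
  | [x0, x1, x2, x3] =>
  let v0 := cst ⟨1099511627776, 0, 0, 0⟩; ok v0 && (
  let v1 := mul x0 x1; ok v1 && (
  let v2 := exp v1; ok v2 && (
  let v3 := neg v1; ok v3 && (
  let v4 := exp v3; ok v4 && (
  let v5 := mul v1 v1; ok v5 && (
  isLt v5 68719476736 && (
  let v6 := scale ⟨9162596898, 0, 0, 0⟩ v5; ok v6 && (
  let v7 := cst ⟨183251937962, 0, 0, 0⟩; ok v7 && (
  let v8 := add v6 v7; ok v8 && (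
  let v9 := mul v8 v5; ok v9 && (
  let v10 := cst ⟨1099511627776, 0, 0, 0⟩; ok v10 && (
  let v11 := add v9 v10; ok v11 && (
  let v12 := cst ⟨65536, 0, 0, 0⟩; ok v12 && (
  let v13 := rball v11 v12; ok v13 && (
  let v14 := scale ⟨2199023255552, 0, 0, 0⟩ x1; ok v14 && (
  let v15 := mul v14 v13; ok v15 && (
  let v16 := add v2 v4; ok v16 && (
  let v17 := scale ⟨549755813888, 0, 0, 0⟩ v16; ok v17 && (
  let v18 := mul v15 v17; ok v18 && (
  let v19 := mul v18 v18; ok v19 && (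
  let v20 := cst ⟨9160359936, 0, 0, 0⟩; ok v20 && (
  let v21 := sub x0 v20; ok v21 && (
  let v22 := cst ⟨412316860416, 0, 0, 0⟩; ok v22 && (
  let v23 := sub x1 v22; ok v23 && (
  let v24 := mul v23 v23; ok v24 && (
  let v25 := mul v24 v23; ok v25 && (
  let v26 := mul v21 v23; ok v26 && (
  let v27 := mul v4 v4; ok v27 && (
  let v28 := mul v27 v27; ok v28 && (
  let v29 := scale ⟨17592186044416, 0, 0, 0⟩ v1; ok v29 && (
  let v30 := neg v29; ok v30 && (
  let v31 := exp v30; ok v31 && (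
  let v32 := scale ⟨0, 2679951982592, 0, 0⟩ v23; ok v32 && (
  let v33 := scale ⟨761988972544, 0, 0, 0⟩ v24; ok v33 && (
  let v34 := add v32 v33; ok v34 && (
  let v35 := scale ⟨0, 11095669276672, 0, 0⟩ v25; ok v35 && (
  let v36 := add v34 v35; ok v36 && (
  let v37 := scale ⟨24118510747648, 0, 0, 0⟩ v21; ok v37 && (
  let v38 := add v36 v37; ok v38 && (
  let v39 := scale ⟨0, 225841994072064, 0, 0⟩ v26; ok v39 && (
  let v40 := add v38 v39; ok v40 && (
  let v41 := cst ⟨3727904145408, 0, 0, 0⟩; ok v41 && (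
  let v42 := add v40 v41; ok v42 && (
  let v43 := mul x0 v18; ok v43 && (
  let v44 := mul v43 v42; ok v44 && (
  let v45 := add v44 v0; ok v45 && (
  let v46 := mul v31 v45; ok v46 && (
  let v47 := scale ⟨1099511627776, 0, 0, 0⟩ v28; ok v47 && (
  let v48 := add v47 v0; ok v48 && (
  let v49 := mul v28 v48; ok v49 && (
  let v50 := add v49 v0; ok v50 && (
  let v51 := mul v28 v50; ok v51 && (
  let v52 := add v51 v0; ok v52 && (
  let v53 := mul v27 v52; ok v53 && (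
  let v54 := scale ⟨2199023255552, 0, 0, 0⟩ v53; ok v54 && (
  let v55 := mul v42 v31; ok v55 && (
  let v56 := sub v54 v55; ok v56 && (
  let v57 := mul x0 v56; ok v57 && (
  let v58 := add v46 v0; ok v58 && (
  let v59 := mul v57 v19; ok v59 && (
  let v60 := mul v59 x2; ok v60 && (
  let v61 := scale ⟨0, 0, 1099511627776, 0⟩ v58; ok v61 && (
  let v62 := add v60 v61; ok v62 && (
  let v63 := mul v58 x2; ok v63 && (
  let v64 := scale ⟨0, 0, 1099511627776, 0⟩ v57; ok v64 && (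
  let v65 := add v63 v64; ok v65 && (
  let v66 := inv v65; ok v66 && (
  let v67 := mul v62 v66; ok v67 && (
  c2_4 cst add sub mul scale neg inv exp log ok isPos isLt ball rball [x0, x1, v67, x3])))))))))))))))))))))))))))))))))))))))))))))))))))))))))))))))))))))
  | _ => false

set_option maxRecDepth 1000000 in
theorem c_B4_0_eq (X : XOps) (m : List X.O.α)
    (h : c_B4_0 X.O.cst X.O.add X.O.sub X.O.mul X.O.scale X.O.neg X.O.inv X.O.exp X.O.log X.O.ok
      X.O.isPos X.O.isLt X.ball X.rball m = true) :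
    runX X 3 (p1_B4 ++ reloc [68, 69, 0, 71] 72 0 p2_4) m = true := by
  match m, h with
  | [x0, x1, x2, x3], h => exact share (c2_4_eq X) [x0, x1, x2, x3] (Nat.le_of_ble_eq_true rfl) h

def p_B4_1 : List Op := [
  .const ⟨1099511627776, 0, 0, 0⟩,
  .mul 1 2,
  .exp 0,
  .neg 1,
  .exp 0,
  .mul 3 3,
  .lt 0 68719476736,
  .scale ⟨9162596898, 0, 0, 0⟩ 0,
  .const ⟨183251937962, 0, 0, 0⟩,
  .add 1 0,
  .mul 0 3,
  .const ⟨1099511627776, 0, 0, 0⟩,
  .add 1 0,
  .const ⟨65536, 0, 0, 0⟩,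
  .rball 1 0,
  .scale ⟨2199023255552, 0, 0, 0⟩ 15,
  .mul 0 1,
  .add 13 11,
  .scale ⟨549755813888, 0, 0, 0⟩ 0,
  .mul 2 0,
  .mul 0 0,
  .const ⟨9160359936, 0, 0, 0⟩,
  .sub 21 0,
  .const ⟨412316860416, 0, 0, 0⟩,
  .sub 24 0,
  .mul 0 0,
  .mul 0 1,
  .mul 4 2,
  .mul 22 22,
  .mul 0 0,
  .scale ⟨17592186044416, 0, 0, 0⟩ 27,
  .neg 0,
  .exp 0,
  .scale ⟨0, 2679951982592, 0, 0⟩ 8,
  .scale ⟨761988972544, 0, 0, 0⟩ 8,
  .add 1 0,
  .scale ⟨0, 11095669276672, 0, 0⟩ 9,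
  .add 1 0,
  .scale ⟨24118510747648, 0, 0, 0⟩ 15,
  .add 1 0,
  .scale ⟨0, 225841994072064, 0, 0⟩ 12,
  .add 1 0,
  .const ⟨3727904145408, 0, 0, 0⟩,
  .add 1 0,
  .mul 43 24,
  .mul 0 1,
  .add 0 44,
  .mul 14 0,
  .scale ⟨1099511627776, 0, 0, 0⟩ 18,
  .add 0 47,
  .mul 20 0,
  .add 0 49,
  .mul 22 0,
  .add 0 51,
  .mul 25 0,
  .scale ⟨2199023255552, 0, 0, 0⟩ 0,
  .mul 12 23,
  .sub 1 0,
  .mul 57 0,
  .add 11 57,
  .mul 1 39,
  .mul 0 62,
  .scale ⟨0, 0, 1099511627776, 0⟩ 2,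
  .add 1 0,
  .mul 4 65,
  .scale ⟨0, 0, 1099511627776, 0⟩ 6,
  .add 1 0,
  .inv 0,
  .mul 4 0,
  .const ⟨10960756539392, 0, 0, 0⟩,
  .add 49 0,
  .mul 70 0,
  .mul 71 3,
  .mul 0 4,
  .mul 73 53,
  .sub 1 0,
  .inv 0,
  .mul 5 0,
  .lt 0 1099511627520]

set_option maxRecDepth 1000000 in
noncomputable def c_B4_1 {α : Type} (cst : Z → α) (add sub mul : α → α → α) (scale : Z → α → α)
    (neg inv exp log : α → α) (ok : α → Bool) (isPos : Nat → α → Bool) (isLt : α → Nat → Bool)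
    (ball : Nat → α → α) (rball : α → α → α) : List α → Bool
  | [x0, x1, x2, x3] =>
  let v0 := cst ⟨1099511627776, 0, 0, 0⟩; ok v0 && (
  let v1 := mul x0 x1; ok v1 && (
  let v2 := exp v1; ok v2 && (
  let v3 := neg v1; ok v3 && (
  let v4 := exp v3; ok v4 && (
  let v5 := mul v1 v1; ok v5 && (
  isLt v5 68719476736 && (
  let v6 := scale ⟨9162596898, 0, 0, 0⟩ v5; ok v6 && (
  let v7 := cst ⟨183251937962, 0, 0, 0⟩; ok v7 && (
  let v8 := add v6 v7; ok v8 && (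
  let v9 := mul v8 v5; ok v9 && (
  let v10 := cst ⟨1099511627776, 0, 0, 0⟩; ok v10 && (
  let v11 := add v9 v10; ok v11 && (
  let v12 := cst ⟨65536, 0, 0, 0⟩; ok v12 && (
  let v13 := rball v11 v12; ok v13 && (
  let v14 := scale ⟨2199023255552, 0, 0, 0⟩ x1; ok v14 && (
  let v15 := mul v14 v13; ok v15 && (
  let v16 := add v2 v4; ok v16 && (
  let v17 := scale ⟨549755813888, 0, 0, 0⟩ v16; ok v17 && (
  let v18 := mul v15 v17; ok v18 && (
  let v19 := mul v18 v18; ok v19 && (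
  let v20 := cst ⟨9160359936, 0, 0, 0⟩; ok v20 && (
  let v21 := sub x0 v20; ok v21 && (
  let v22 := cst ⟨412316860416, 0, 0, 0⟩; ok v22 && (
  let v23 := sub x1 v22; ok v23 && (
  let v24 := mul v23 v23; ok v24 && (
  let v25 := mul v24 v23; ok v25 && (
  let v26 := mul v21 v23; ok v26 && (
  let v27 := mul v4 v4; ok v27 && (
  let v28 := mul v27 v27; ok v28 && (
  let v29 := scale ⟨17592186044416, 0, 0, 0⟩ v1; ok v29 && (
  let v30 := neg v29; ok v30 && (
  let v31 := exp v30; ok v31 && (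
  let v32 := scale ⟨0, 2679951982592, 0, 0⟩ v23; ok v32 && (
  let v33 := scale ⟨761988972544, 0, 0, 0⟩ v24; ok v33 && (
  let v34 := add v32 v33; ok v34 && (
  let v35 := scale ⟨0, 11095669276672, 0, 0⟩ v25; ok v35 && (
  let v36 := add v34 v35; ok v36 && (
  let v37 := scale ⟨24118510747648, 0, 0, 0⟩ v21; ok v37 && (
  let v38 := add v36 v37; ok v38 && (
  let v39 := scale ⟨0, 225841994072064, 0, 0⟩ v26; ok v39 && (
  let v40 := add v38 v39; ok v40 && (
  let v41 := cst ⟨3727904145408, 0, 0, 0⟩; ok v41 && (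
  let v42 := add v40 v41; ok v42 && (
  let v43 := mul x0 v18; ok v43 && (
  let v44 := mul v43 v42; ok v44 && (
  let v45 := add v44 v0; ok v45 && (
  let v46 := mul v31 v45; ok v46 && (
  let v47 := scale ⟨1099511627776, 0, 0, 0⟩ v28; ok v47 && (
  let v48 := add v47 v0; ok v48 && (
  let v49 := mul v28 v48; ok v49 && (
  let v50 := add v49 v0; ok v50 && (
  let v51 := mul v28 v50; ok v51 && (
  let v52 := add v51 v0; ok v52 && (
  let v53 := mul v27 v52; ok v53 && (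
  let v54 := scale ⟨2199023255552, 0, 0, 0⟩ v53; ok v54 && (
  let v55 := mul v42 v31; ok v55 && (
  let v56 := sub v54 v55; ok v56 && (
  let v57 := mul x0 v56; ok v57 && (
  let v58 := add v46 v0; ok v58 && (
  let v59 := mul v57 v19; ok v59 && (
  let v60 := mul v59 x2; ok v60 && (
  let v61 := scale ⟨0, 0, 1099511627776, 0⟩ v58; ok v61 && (
  let v62 := add v60 v61; ok v62 && (
  let v63 := mul v58 x2; ok v63 && (
  let v64 := scale ⟨0, 0, 1099511627776, 0⟩ v57; ok v64 && (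
  let v65 := add v63 v64; ok v65 && (
  let v66 := inv v65; ok v66 && (
  let v67 := mul v62 v66; ok v67 && (
  let v68 := cst ⟨10960756539392, 0, 0, 0⟩; ok v68 && (
  let v69 := add v19 v68; ok v69 && (
  let v70 := mul x0 v69; ok v70 && (
  let v71 := mul x0 v67; ok v71 && (
  let v72 := mul v71 v67; ok v72 && (
  let v73 := mul x0 v19; ok v73 && (
  let v74 := sub v72 v73; ok v74 && (
  let v75 := inv v74; ok v75 && (
  let v76 := mul v70 v75; ok v76 && (
  isLt v76 1099511627520 && (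
  true)))))))))))))))))))))))))))))))))))))))))))))))))))))))))))))))))))))))))))))))
  | _ => false

set_option maxRecDepth 1000000 in
theorem c_B4_1_eq (X : XOps) (m : List X.O.α)
    (h : c_B4_1 X.O.cst X.O.add X.O.sub X.O.mul X.O.scale X.O.neg X.O.inv X.O.exp X.O.log X.O.ok
      X.O.isPos X.O.isLt X.ball X.rball m = true) :
    runX X 3 p_B4_1 m = true := by
  match m, h with
  | [x0, x1, x2, x3], h => exact h

abbrev gB4 : List (List Op) := [(p1_B4 ++ reloc [68, 69, 0, 71] 72 0 p2_4), p_B4_1]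

noncomputable abbrev kB4 : List (List xE.O.α → Bool) := [c_B4_0 xE.O.cst xE.O.add xE.O.sub xE.O.mul xE.O.scale xE.O.neg xE.O.inv xE.O.exp xE.O.log xE.O.ok
      xE.O.isPos xE.O.isLt xE.ball xE.rball, c_B4_1 xE.O.cst xE.O.add xE.O.sub xE.O.mul xE.O.scale xE.O.neg xE.O.inv xE.O.exp xE.O.log xE.O.ok
      xE.O.isPos xE.O.isLt xE.ball xE.rball]

theorem kB4_eq : List.Forall₂ (fun (ops : List Op) (chk : List xE.O.α → Bool) =>
    ∀ m, chk m = true → runX xE 3 ops m = true) gB4 kB4 :=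
  List.Forall₂.cons (c_B4_0_eq xE) (List.Forall₂.cons (c_B4_1_eq xE) List.Forall₂.nil)

theorem gB4_eq : gB4 = [circ (cB tab 4) (PSm tab 4), altP (cB tab 4) (oCut tab 4)] := by decide +kernel

def p1_D4 : List Op := [
  .const ⟨1099511627776, 0, 0, 0⟩,
  .mul 1 2,
  .exp 0,
  .neg 1,
  .exp 0,
  .mul 3 3,
  .lt 0 68719476736,
  .scale ⟨9162596898, 0, 0, 0⟩ 0,
  .const ⟨183251937962, 0, 0, 0⟩,
  .add 1 0,
  .mul 0 3,
  .const ⟨1099511627776, 0, 0, 0⟩,
  .add 1 0,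
  .const ⟨65536, 0, 0, 0⟩,
  .rball 1 0,
  .scale ⟨2199023255552, 0, 0, 0⟩ 15,
  .mul 0 1,
  .add 13 11,
  .scale ⟨549755813888, 0, 0, 0⟩ 0,
  .mul 2 0,
  .mul 0 0,
  .const ⟨10960756539392, 0, 0, 0⟩,
  .add 1 0,
  .scale ⟨0, 0, 1099511627776, 0⟩ 24,
  .exp 0,
  .mul 2 0,
  .add 5 0,
  .log 0,
  .scale ⟨549755813888, 0, 0, 0⟩ 0,
  .exp 0]

set_option maxRecDepth 1000000 in
noncomputable def c_D4_0 {α : Type} (cst : Z → α) (add sub mul : α → α → α) (scale : Z → α → α)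
    (neg inv exp log : α → α) (ok : α → Bool) (isPos : Nat → α → Bool) (isLt : α → Nat → Bool)
    (ball : Nat → α → α) (rball : α → α → α) : List α → Bool
  | [x0, x1, x2, x3] =>
  let v0 := cst ⟨1099511627776, 0, 0, 0⟩; ok v0 && (
  let v1 := mul x0 x1; ok v1 && (
  let v2 := exp v1; ok v2 && (
  let v3 := neg v1; ok v3 && (
  let v4 := exp v3; ok v4 && (
  let v5 := mul v1 v1; ok v5 && (
  isLt v5 68719476736 && (
  let v6 := scale ⟨9162596898, 0, 0, 0⟩ v5; ok v6 && (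
  let v7 := cst ⟨183251937962, 0, 0, 0⟩; ok v7 && (
  let v8 := add v6 v7; ok v8 && (
  let v9 := mul v8 v5; ok v9 && (
  let v10 := cst ⟨1099511627776, 0, 0, 0⟩; ok v10 && (
  let v11 := add v9 v10; ok v11 && (
  let v12 := cst ⟨65536, 0, 0, 0⟩; ok v12 && (
  let v13 := rball v11 v12; ok v13 && (
  let v14 := scale ⟨2199023255552, 0, 0, 0⟩ x1; ok v14 && (
  let v15 := mul v14 v13; ok v15 && (
  let v16 := add v2 v4; ok v16 && (
  let v17 := scale ⟨549755813888, 0, 0, 0⟩ v16; ok v17 && (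
  let v18 := mul v15 v17; ok v18 && (
  let v19 := mul v18 v18; ok v19 && (
  let v20 := cst ⟨10960756539392, 0, 0, 0⟩; ok v20 && (
  let v21 := add v19 v20; ok v21 && (
  let v22 := scale ⟨0, 0, 1099511627776, 0⟩ x2; ok v22 && (
  let v23 := exp v22; ok v23 && (
  let v24 := mul v21 v23; ok v24 && (
  let v25 := add v19 v24; ok v25 && (
  let v26 := log v25; ok v26 && (
  let v27 := scale ⟨549755813888, 0, 0, 0⟩ v26; ok v27 && (
  let v28 := exp v27; ok v28 && (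
  c2_4 cst add sub mul scale neg inv exp log ok isPos isLt ball rball [x0, x1, v28, x3]))))))))))))))))))))))))))))))
  | _ => false

set_option maxRecDepth 1000000 in
theorem c_D4_0_eq (X : XOps) (m : List X.O.α)
    (h : c_D4_0 X.O.cst X.O.add X.O.sub X.O.mul X.O.scale X.O.neg X.O.inv X.O.exp X.O.log X.O.ok
      X.O.isPos X.O.isLt X.ball X.rball m = true) :
    runX X 3 (p1_D4 ++ reloc [29, 30, 0, 32] 33 0 p2_4) m = true := by
  match m, h with
  | [x0, x1, x2, x3], h => exact share (c2_4_eq X) [x0, x1, x2, x3] (Nat.le_of_ble_eq_true rfl) h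

def p_D4_1 : List Op := [
  .const ⟨1099511627776, 0, 0, 0⟩,
  .mul 1 2,
  .exp 0,
  .neg 1,
  .exp 0,
  .mul 3 3,
  .lt 0 68719476736,
  .scale ⟨9162596898, 0, 0, 0⟩ 0,
  .const ⟨183251937962, 0, 0, 0⟩,
  .add 1 0,
  .mul 0 3,
  .const ⟨1099511627776, 0, 0, 0⟩,
  .add 1 0,
  .const ⟨65536, 0, 0, 0⟩,
  .rball 1 0,
  .scale ⟨2199023255552, 0, 0, 0⟩ 15,
  .mul 0 1,
  .add 13 11,
  .scale ⟨549755813888, 0, 0, 0⟩ 0,
  .mul 2 0,
  .mul 0 0,
  .const ⟨9160359936, 0, 0, 0⟩,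
  .sub 21 0,
  .const ⟨412316860416, 0, 0, 0⟩,
  .sub 24 0,
  .mul 0 0,
  .mul 0 1,
  .mul 4 2,
  .mul 22 22,
  .mul 0 0,
  .scale ⟨17592186044416, 0, 0, 0⟩ 27,
  .neg 0,
  .exp 0,
  .scale ⟨0, 2679951982592, 0, 0⟩ 8,
  .scale ⟨761988972544, 0, 0, 0⟩ 8,
  .add 1 0,
  .scale ⟨0, 11095669276672, 0, 0⟩ 9,
  .add 1 0,
  .scale ⟨24118510747648, 0, 0, 0⟩ 15,
  .add 1 0,
  .scale ⟨0, 225841994072064, 0, 0⟩ 12,
  .add 1 0,
  .const ⟨3727904145408, 0, 0, 0⟩,
  .add 1 0,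
  .mul 43 24,
  .mul 0 1,
  .add 0 44,
  .mul 14 0,
  .scale ⟨1099511627776, 0, 0, 0⟩ 18,
  .add 0 47,
  .mul 20 0,
  .add 0 49,
  .mul 22 0,
  .add 0 51,
  .mul 25 0,
  .scale ⟨2199023255552, 0, 0, 0⟩ 0,
  .mul 12 23,
  .sub 1 0,
  .const ⟨10960756539392, 0, 0, 0⟩,
  .add 38 0,
  .scale ⟨0, 0, 1099511627776, 0⟩ 61,
  .exp 0,
  .mul 2 0,
  .add 42 0,
  .log 0,
  .scale ⟨549755813888, 0, 0, 0⟩ 0,
  .exp 0,
  .scale ⟨0, 0, 0, 1099511627776⟩ 68,
  .exp 0,
  .mul 9 0,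
  .add 49 0,
  .log 0,
  .scale ⟨549755813888, 0, 0, 0⟩ 0,
  .exp 0,
  .mul 73 16,
  .add 27 73,
  .mul 1 0,
  .mul 10 3,
  .add 57 0,
  .mul 2 0,
  .mul 32 32,
  .add 0 79,
  .add 15 8,
  .mul 1 0,
  .sub 4 0,
  .pos 0]

set_option maxRecDepth 1000000 in
noncomputable def c_D4_1 {α : Type} (cst : Z → α) (add sub mul : α → α → α) (scale : Z → α → α)
    (neg inv exp log : α → α) (ok : α → Bool) (isPos : Nat → α → Bool) (isLt : α → Nat → Bool)
    (ball : Nat → α → α) (rball : α → α → α) : List α → Bool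
  | [x0, x1, x2, x3] =>
  let v0 := cst ⟨1099511627776, 0, 0, 0⟩; ok v0 && (
  let v1 := mul x0 x1; ok v1 && (
  let v2 := exp v1; ok v2 && (
  let v3 := neg v1; ok v3 && (
  let v4 := exp v3; ok v4 && (
  let v5 := mul v1 v1; ok v5 && (
  isLt v5 68719476736 && (
  let v6 := scale ⟨9162596898, 0, 0, 0⟩ v5; ok v6 && (
  let v7 := cst ⟨183251937962, 0, 0, 0⟩; ok v7 && (
  let v8 := add v6 v7; ok v8 && (
  let v9 := mul v8 v5; ok v9 && (
  let v10 := cst ⟨1099511627776, 0, 0, 0⟩; ok v10 && (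
  let v11 := add v9 v10; ok v11 && (
  let v12 := cst ⟨65536, 0, 0, 0⟩; ok v12 && (
  let v13 := rball v11 v12; ok v13 && (
  let v14 := scale ⟨2199023255552, 0, 0, 0⟩ x1; ok v14 && (
  let v15 := mul v14 v13; ok v15 && (
  let v16 := add v2 v4; ok v16 && (
  let v17 := scale ⟨549755813888, 0, 0, 0⟩ v16; ok v17 && (
  let v18 := mul v15 v17; ok v18 && (
  let v19 := mul v18 v18; ok v19 && (
  let v20 := cst ⟨9160359936, 0, 0, 0⟩; ok v20 && (
  let v21 := sub x0 v20; ok v21 && (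
  let v22 := cst ⟨412316860416, 0, 0, 0⟩; ok v22 && (
  let v23 := sub x1 v22; ok v23 && (
  let v24 := mul v23 v23; ok v24 && (
  let v25 := mul v24 v23; ok v25 && (
  let v26 := mul v21 v23; ok v26 && (
  let v27 := mul v4 v4; ok v27 && (
  let v28 := mul v27 v27; ok v28 && (
  let v29 := scale ⟨17592186044416, 0, 0, 0⟩ v1; ok v29 && (
  let v30 := neg v29; ok v30 && (
  let v31 := exp v30; ok v31 && (
  let v32 := scale ⟨0, 2679951982592, 0, 0⟩ v23; ok v32 && (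
  let v33 := scale ⟨761988972544, 0, 0, 0⟩ v24; ok v33 && (
  let v34 := add v32 v33; ok v34 && (
  let v35 := scale ⟨0, 11095669276672, 0, 0⟩ v25; ok v35 && (
  let v36 := add v34 v35; ok v36 && (
  let v37 := scale ⟨24118510747648, 0, 0, 0⟩ v21; ok v37 && (
  let v38 := add v36 v37; ok v38 && (
  let v39 := scale ⟨0, 225841994072064, 0, 0⟩ v26; ok v39 && (
  let v40 := add v38 v39; ok v40 && (
  let v41 := cst ⟨3727904145408, 0, 0, 0⟩; ok v41 && (
  let v42 := add v40 v41; ok v42 && (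
  let v43 := mul x0 v18; ok v43 && (
  let v44 := mul v43 v42; ok v44 && (
  let v45 := add v44 v0; ok v45 && (
  let v46 := mul v31 v45; ok v46 && (
  let v47 := scale ⟨1099511627776, 0, 0, 0⟩ v28; ok v47 && (
  let v48 := add v47 v0; ok v48 && (
  let v49 := mul v28 v48; ok v49 && (
  let v50 := add v49 v0; ok v50 && (
  let v51 := mul v28 v50; ok v51 && (
  let v52 := add v51 v0; ok v52 && (
  let v53 := mul v27 v52; ok v53 && (
  let v54 := scale ⟨2199023255552, 0, 0, 0⟩ v53; ok v54 && (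
  let v55 := mul v42 v31; ok v55 && (
  let v56 := sub v54 v55; ok v56 && (
  let v57 := cst ⟨10960756539392, 0, 0, 0⟩; ok v57 && (
  let v58 := add v19 v57; ok v58 && (
  let v59 := scale ⟨0, 0, 1099511627776, 0⟩ x2; ok v59 && (
  let v60 := exp v59; ok v60 && (
  let v61 := mul v58 v60; ok v61 && (
  let v62 := add v19 v61; ok v62 && (
  let v63 := log v62; ok v63 && (
  let v64 := scale ⟨549755813888, 0, 0, 0⟩ v63; ok v64 && (
  let v65 := exp v64; ok v65 && (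
  let v66 := scale ⟨0, 0, 0, 1099511627776⟩ x2; ok v66 && (
  let v67 := exp v66; ok v67 && (
  let v68 := mul v58 v67; ok v68 && (
  let v69 := add v19 v68; ok v69 && (
  let v70 := log v69; ok v70 && (
  let v71 := scale ⟨549755813888, 0, 0, 0⟩ v70; ok v71 && (
  let v72 := exp v71; ok v72 && (
  let v73 := mul x0 v56; ok v73 && (
  let v74 := add v46 v0; ok v74 && (
  let v75 := mul v73 v74; ok v75 && (
  let v76 := mul v65 v72; ok v76 && (
  let v77 := add v19 v76; ok v77 && (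
  let v78 := mul v75 v77; ok v78 && (
  let v79 := mul v46 v46; ok v79 && (
  let v80 := add v79 v0; ok v80 && (
  let v81 := add v65 v72; ok v81 && (
  let v82 := mul v80 v81; ok v82 && (
  let v83 := sub v78 v82; ok v83 && (
  isPos 3 v83 && (
  true))))))))))))))))))))))))))))))))))))))))))))))))))))))))))))))))))))))))))))))))))))))
  | _ => false

set_option maxRecDepth 1000000 in
theorem c_D4_1_eq (X : XOps) (m : List X.O.α)
    (h : c_D4_1 X.O.cst X.O.add X.O.sub X.O.mul X.O.scale X.O.neg X.O.inv X.O.exp X.O.log X.O.ok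
      X.O.isPos X.O.isLt X.ball X.rball m = true) :
    runX X 3 p_D4_1 m = true := by
  match m, h with
  | [x0, x1, x2, x3], h => exact h

abbrev gD4 : List (List Op) := [(p1_D4 ++ reloc [29, 30, 0, 32] 33 0 p2_4), p_D4_1]

noncomputable abbrev kD4 : List (List xE.O.α → Bool) := [c_D4_0 xE.O.cst xE.O.add xE.O.sub xE.O.mul xE.O.scale xE.O.neg xE.O.inv xE.O.exp xE.O.log xE.O.ok
      xE.O.isPos xE.O.isLt xE.ball xE.rball, c_D4_1 xE.O.cst xE.O.add xE.O.sub xE.O.mul xE.O.scale xE.O.neg xE.O.inv xE.O.exp xE.O.log xE.O.ok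
      xE.O.isPos xE.O.isLt xE.ball xE.rball]

theorem kD4_eq : List.Forall₂ (fun (ops : List Op) (chk : List xE.O.α → Bool) =>
    ∀ m, chk m = true → runX xE 3 ops m = true) gD4 kD4 :=
  List.Forall₂.cons (c_D4_0_eq xE) (List.Forall₂.cons (c_D4_1_eq xE) List.Forall₂.nil)

theorem gD4_eq : gD4 = [circ (cD tab 4) (PSm tab 4), comp (oD tab 4) ρ4 4] := by decide +kernel

def p1_E4 : List Op := [
  .const ⟨1099511627776, 0, 0, 0⟩,
  .mul 1 2,
  .exp 0,
  .neg 1,
  .exp 0,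
  .mul 3 3,
  .lt 0 68719476736,
  .scale ⟨9162596898, 0, 0, 0⟩ 0,
  .const ⟨183251937962, 0, 0, 0⟩,
  .add 1 0,
  .mul 0 3,
  .const ⟨1099511627776, 0, 0, 0⟩,
  .add 1 0,
  .const ⟨65536, 0, 0, 0⟩,
  .rball 1 0,
  .scale ⟨2199023255552, 0, 0, 0⟩ 15,
  .mul 0 1,
  .add 13 11,
  .scale ⟨549755813888, 0, 0, 0⟩ 0,
  .mul 2 0,
  .mul 0 0,
  .const ⟨10960756539392, 0, 0, 0⟩,
  .add 1 0,
  .scale ⟨0, 0, 0, 1099511627776⟩ 24,
  .exp 0,
  .mul 2 0,
  .sub 0 5,
  .log 0,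
  .scale ⟨549755813888, 0, 0, 0⟩ 0,
  .exp 0,
  .scale ⟨0, 0, 1099511627776, 0⟩ 0]

set_option maxRecDepth 1000000 in
noncomputable def c_E4_0 {α : Type} (cst : Z → α) (add sub mul : α → α → α) (scale : Z → α → α)
    (neg inv exp log : α → α) (ok : α → Bool) (isPos : Nat → α → Bool) (isLt : α → Nat → Bool)
    (ball : Nat → α → α) (rball : α → α → α) : List α → Bool
  | [x0, x1, x2, x3] =>
  let v0 := cst ⟨1099511627776, 0, 0, 0⟩; ok v0 && (
  let v1 := mul x0 x1; ok v1 && (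
  let v2 := exp v1; ok v2 && (
  let v3 := neg v1; ok v3 && (
  let v4 := exp v3; ok v4 && (
  let v5 := mul v1 v1; ok v5 && (
  isLt v5 68719476736 && (
  let v6 := scale ⟨9162596898, 0, 0, 0⟩ v5; ok v6 && (
  let v7 := cst ⟨183251937962, 0, 0, 0⟩; ok v7 && (
  let v8 := add v6 v7; ok v8 && (
  let v9 := mul v8 v5; ok v9 && (
  let v10 := cst ⟨1099511627776, 0, 0, 0⟩; ok v10 && (
  let v11 := add v9 v10; ok v11 && (
  let v12 := cst ⟨65536, 0, 0, 0⟩; ok v12 && (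
  let v13 := rball v11 v12; ok v13 && (
  let v14 := scale ⟨2199023255552, 0, 0, 0⟩ x1; ok v14 && (
  let v15 := mul v14 v13; ok v15 && (
  let v16 := add v2 v4; ok v16 && (
  let v17 := scale ⟨549755813888, 0, 0, 0⟩ v16; ok v17 && (
  let v18 := mul v15 v17; ok v18 && (
  let v19 := mul v18 v18; ok v19 && (
  let v20 := cst ⟨10960756539392, 0, 0, 0⟩; ok v20 && (
  let v21 := add v19 v20; ok v21 && (
  let v22 := scale ⟨0, 0, 0, 1099511627776⟩ x2; ok v22 && (
  let v23 := exp v22; ok v23 && (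
  let v24 := mul v21 v23; ok v24 && (
  let v25 := sub v24 v19; ok v25 && (
  let v26 := log v25; ok v26 && (
  let v27 := scale ⟨549755813888, 0, 0, 0⟩ v26; ok v27 && (
  let v28 := exp v27; ok v28 && (
  let v29 := scale ⟨0, 0, 1099511627776, 0⟩ v28; ok v29 && (
  c2_4 cst add sub mul scale neg inv exp log ok isPos isLt ball rball [x0, x1, v29, x3])))))))))))))))))))))))))))))))
  | _ => false

set_option maxRecDepth 1000000 in
theorem c_E4_0_eq (X : XOps) (m : List X.O.α)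
    (h : c_E4_0 X.O.cst X.O.add X.O.sub X.O.mul X.O.scale X.O.neg X.O.inv X.O.exp X.O.log X.O.ok
      X.O.isPos X.O.isLt X.ball X.rball m = true) :
    runX X 3 (p1_E4 ++ reloc [30, 31, 0, 33] 34 0 p2_4) m = true := by
  match m, h with
  | [x0, x1, x2, x3], h => exact share (c2_4_eq X) [x0, x1, x2, x3] (Nat.le_of_ble_eq_true rfl) h

def p_E4_1 : List Op := [
  .const ⟨1099511627776, 0, 0, 0⟩,
  .mul 1 2,
  .exp 0,
  .neg 1,
  .exp 0,
  .mul 3 3,
  .lt 0 68719476736,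
  .scale ⟨9162596898, 0, 0, 0⟩ 0,
  .const ⟨183251937962, 0, 0, 0⟩,
  .add 1 0,
  .mul 0 3,
  .const ⟨1099511627776, 0, 0, 0⟩,
  .add 1 0,
  .const ⟨65536, 0, 0, 0⟩,
  .rball 1 0,
  .scale ⟨2199023255552, 0, 0, 0⟩ 15,
  .mul 0 1,
  .add 13 11,
  .scale ⟨549755813888, 0, 0, 0⟩ 0,
  .mul 2 0,
  .mul 0 0,
  .const ⟨9160359936, 0, 0, 0⟩,
  .sub 21 0,
  .const ⟨412316860416, 0, 0, 0⟩,
  .sub 24 0,
  .mul 0 0,
  .mul 0 1,
  .mul 4 2,
  .mul 22 22,
  .mul 0 0,
  .scale ⟨17592186044416, 0, 0, 0⟩ 27,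
  .neg 0,
  .exp 0,
  .scale ⟨0, 2679951982592, 0, 0⟩ 8,
  .scale ⟨761988972544, 0, 0, 0⟩ 8,
  .add 1 0,
  .scale ⟨0, 11095669276672, 0, 0⟩ 9,
  .add 1 0,
  .scale ⟨24118510747648, 0, 0, 0⟩ 15,
  .add 1 0,
  .scale ⟨0, 225841994072064, 0, 0⟩ 12,
  .add 1 0,
  .const ⟨3727904145408, 0, 0, 0⟩,
  .add 1 0,
  .mul 43 24,
  .mul 0 1,
  .add 0 44,
  .mul 14 0,
  .scale ⟨1099511627776, 0, 0, 0⟩ 18,
  .add 0 47,
  .mul 20 0,
  .add 0 49,
  .mul 22 0,
  .add 0 51,
  .mul 25 0,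
  .scale ⟨2199023255552, 0, 0, 0⟩ 0,
  .mul 12 23,
  .sub 1 0,
  .const ⟨10960756539392, 0, 0, 0⟩,
  .add 38 0,
  .scale ⟨0, 0, 0, 1099511627776⟩ 61,
  .exp 0,
  .mul 2 0,
  .sub 0 42,
  .log 0,
  .scale ⟨549755813888, 0, 0, 0⟩ 0,
  .exp 0,
  .scale ⟨0, 0, 1099511627776, 0⟩ 0,
  .scale ⟨0, 0, 1099511627776, 0⟩ 69,
  .exp 0,
  .mul 10 0,
  .sub 0 50,
  .log 0,
  .scale ⟨549755813888, 0, 0, 0⟩ 0,
  .exp 0,
  .scale ⟨0, 0, 0, 1099511627776⟩ 0,
  .mul 75 18,
  .add 29 75,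
  .mul 1 0,
  .mul 11 3,
  .add 59 0,
  .mul 2 0,
  .mul 34 34,
  .add 0 81,
  .add 16 8,
  .mul 1 0,
  .sub 4 0,
  .pos 0]

set_option maxRecDepth 1000000 in
noncomputable def c_E4_1 {α : Type} (cst : Z → α) (add sub mul : α → α → α) (scale : Z → α → α)
    (neg inv exp log : α → α) (ok : α → Bool) (isPos : Nat → α → Bool) (isLt : α → Nat → Bool)
    (ball : Nat → α → α) (rball : α → α → α) : List α → Bool
  | [x0, x1, x2, x3] =>
  let v0 := cst ⟨1099511627776, 0, 0, 0⟩; ok v0 && (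
  let v1 := mul x0 x1; ok v1 && (
  let v2 := exp v1; ok v2 && (
  let v3 := neg v1; ok v3 && (
  let v4 := exp v3; ok v4 && (
  let v5 := mul v1 v1; ok v5 && (
  isLt v5 68719476736 && (
  let v6 := scale ⟨9162596898, 0, 0, 0⟩ v5; ok v6 && (
  let v7 := cst ⟨183251937962, 0, 0, 0⟩; ok v7 && (
  let v8 := add v6 v7; ok v8 && (
  let v9 := mul v8 v5; ok v9 && (
  let v10 := cst ⟨1099511627776, 0, 0, 0⟩; ok v10 && (
  let v11 := add v9 v10; ok v11 && (
  let v12 := cst ⟨65536, 0, 0, 0⟩; ok v12 && (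
  let v13 := rball v11 v12; ok v13 && (
  let v14 := scale ⟨2199023255552, 0, 0, 0⟩ x1; ok v14 && (
  let v15 := mul v14 v13; ok v15 && (
  let v16 := add v2 v4; ok v16 && (
  let v17 := scale ⟨549755813888, 0, 0, 0⟩ v16; ok v17 && (
  let v18 := mul v15 v17; ok v18 && (
  let v19 := mul v18 v18; ok v19 && (
  let v20 := cst ⟨9160359936, 0, 0, 0⟩; ok v20 && (
  let v21 := sub x0 v20; ok v21 && (
  let v22 := cst ⟨412316860416, 0, 0, 0⟩; ok v22 && (
  let v23 := sub x1 v22; ok v23 && (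
  let v24 := mul v23 v23; ok v24 && (
  let v25 := mul v24 v23; ok v25 && (
  let v26 := mul v21 v23; ok v26 && (
  let v27 := mul v4 v4; ok v27 && (
  let v28 := mul v27 v27; ok v28 && (
  let v29 := scale ⟨17592186044416, 0, 0, 0⟩ v1; ok v29 && (
  let v30 := neg v29; ok v30 && (
  let v31 := exp v30; ok v31 && (
  let v32 := scale ⟨0, 2679951982592, 0, 0⟩ v23; ok v32 && (
  let v33 := scale ⟨761988972544, 0, 0, 0⟩ v24; ok v33 && (
  let v34 := add v32 v33; ok v34 && (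
  let v35 := scale ⟨0, 11095669276672, 0, 0⟩ v25; ok v35 && (
  let v36 := add v34 v35; ok v36 && (
  let v37 := scale ⟨24118510747648, 0, 0, 0⟩ v21; ok v37 && (
  let v38 := add v36 v37; ok v38 && (
  let v39 := scale ⟨0, 225841994072064, 0, 0⟩ v26; ok v39 && (
  let v40 := add v38 v39; ok v40 && (
  let v41 := cst ⟨3727904145408, 0, 0, 0⟩; ok v41 && (
  let v42 := add v40 v41; ok v42 && (
  let v43 := mul x0 v18; ok v43 && (
  let v44 := mul v43 v42; ok v44 && (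
  let v45 := add v44 v0; ok v45 && (
  let v46 := mul v31 v45; ok v46 && (
  let v47 := scale ⟨1099511627776, 0, 0, 0⟩ v28; ok v47 && (
  let v48 := add v47 v0; ok v48 && (
  let v49 := mul v28 v48; ok v49 && (
  let v50 := add v49 v0; ok v50 && (
  let v51 := mul v28 v50; ok v51 && (
  let v52 := add v51 v0; ok v52 && (
  let v53 := mul v27 v52; ok v53 && (
  let v54 := scale ⟨2199023255552, 0, 0, 0⟩ v53; ok v54 && (
  let v55 := mul v42 v31; ok v55 && (
  let v56 := sub v54 v55; ok v56 && (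
  let v57 := cst ⟨10960756539392, 0, 0, 0⟩; ok v57 && (
  let v58 := add v19 v57; ok v58 && (
  let v59 := scale ⟨0, 0, 0, 1099511627776⟩ x2; ok v59 && (
  let v60 := exp v59; ok v60 && (
  let v61 := mul v58 v60; ok v61 && (
  let v62 := sub v61 v19; ok v62 && (
  let v63 := log v62; ok v63 && (
  let v64 := scale ⟨549755813888, 0, 0, 0⟩ v63; ok v64 && (
  let v65 := exp v64; ok v65 && (
  let v66 := scale ⟨0, 0, 1099511627776, 0⟩ v65; ok v66 && (
  let v67 := scale ⟨0, 0, 1099511627776, 0⟩ x2; ok v67 && (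
  let v68 := exp v67; ok v68 && (
  let v69 := mul v58 v68; ok v69 && (
  let v70 := sub v69 v19; ok v70 && (
  let v71 := log v70; ok v71 && (
  let v72 := scale ⟨549755813888, 0, 0, 0⟩ v71; ok v72 && (
  let v73 := exp v72; ok v73 && (
  let v74 := scale ⟨0, 0, 0, 1099511627776⟩ v73; ok v74 && (
  let v75 := mul x0 v56; ok v75 && (
  let v76 := add v46 v0; ok v76 && (
  let v77 := mul v75 v76; ok v77 && (
  let v78 := mul v66 v74; ok v78 && (
  let v79 := add v19 v78; ok v79 && (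
  let v80 := mul v77 v79; ok v80 && (
  let v81 := mul v46 v46; ok v81 && (
  let v82 := add v81 v0; ok v82 && (
  let v83 := add v66 v74; ok v83 && (
  let v84 := mul v82 v83; ok v84 && (
  let v85 := sub v80 v84; ok v85 && (
  isPos 3 v85 && (
  true))))))))))))))))))))))))))))))))))))))))))))))))))))))))))))))))))))))))))))))))))))))))
  | _ => false

set_option maxRecDepth 1000000 in
theorem c_E4_1_eq (X : XOps) (m : List X.O.α)
    (h : c_E4_1 X.O.cst X.O.add X.O.sub X.O.mul X.O.scale X.O.neg X.O.inv X.O.exp X.O.log X.O.ok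
      X.O.isPos X.O.isLt X.ball X.rball m = true) :
    runX X 3 p_E4_1 m = true := by
  match m, h with
  | [x0, x1, x2, x3], h => exact h

abbrev gE4 : List (List Op) := [(p1_E4 ++ reloc [30, 31, 0, 33] 34 0 p2_4), p_E4_1]

noncomputable abbrev kE4 : List (List xE.O.α → Bool) := [c_E4_0 xE.O.cst xE.O.add xE.O.sub xE.O.mul xE.O.scale xE.O.neg xE.O.inv xE.O.exp xE.O.log xE.O.ok
      xE.O.isPos xE.O.isLt xE.ball xE.rball, c_E4_1 xE.O.cst xE.O.add xE.O.sub xE.O.mul xE.O.scale xE.O.neg xE.O.inv xE.O.exp xE.O.log xE.O.ok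
      xE.O.isPos xE.O.isLt xE.ball xE.rball]

theorem kE4_eq : List.Forall₂ (fun (ops : List Op) (chk : List xE.O.α → Bool) =>
    ∀ m, chk m = true → runX xE 3 ops m = true) gE4 kE4 :=
  List.Forall₂.cons (c_E4_0_eq xE) (List.Forall₂.cons (c_E4_1_eq xE) List.Forall₂.nil)

theorem gE4_eq : gE4 = [circ (cE tab 4) (PSm tab 4), comp (oE tab 4) ρ4 4] := by decide +kernel

end Pool.Agent.helper14.NS.Q100b
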